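import Pool.Agent.Q60.RB.Defs

/-!
# The action of matrices and its derivative on the tensor constructions
-/

set_option linter.unusedSectionVars false

namespace Pool.Agent.Q60.RB

open Matrix

section plain

variable {R : Type} [CommRing R] {A B : Type} [Fintype A] [Fintype B] [DecidableEq A]
  [DecidableEq B]

/-- The Kronecker product. -/
abbrev kr (M : Matrix A A R) (N : Matrix B B R) : Matrix (A × B) (A × B) R :=
  Matrix.kroneckerMap (· * ·) M N

/-- Blocks. -/
abbrev bl (M : Matrix A A R) (N : Matrix B B R) : Matrix (A ⊕ B) (A ⊕ B) R :=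
  Matrix.fromBlocks M 0 0 N

/-- The derivative on a tensor product. -/
def kd (M : Matrix A A R) (N : Matrix B B R) : Matrix (A × B) (A × B) R := kr M 1 + kr 1 N

lemma kr_mul (M M' : Matrix A A R) (N N' : Matrix B B R) :
    kr M N * kr M' N' = kr (M * M') (N * N') := (Matrix.mul_kronecker_mul _ _ _ _).symm

lemma kr_add (M M' : Matrix A A R) (N : Matrix B B R) : kr (M + M') N = kr M N + kr M' N :=
  Matrix.add_kronecker _ _ _

lemma kr_add' (M : Matrix A A R) (N N' : Matrix B B R) : kr M (N + N') = kr M N + kr M N' :=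
  Matrix.kronecker_add _ _ _

lemma kr_smul (c : R) (M : Matrix A A R) (N : Matrix B B R) : kr (c • M) N = c • kr M N :=
  Matrix.smul_kronecker _ _ _

lemma kr_smul' (c : R) (M : Matrix A A R) (N : Matrix B B R) : kr M (c • N) = c • kr M N :=
  Matrix.kronecker_smul _ _ _

lemma kr_sub (M M' : Matrix A A R) (N : Matrix B B R) : kr (M - M') N = kr M N - kr M' N := by
  have h := kr_add M ((-1 : R) • M') N
  rw [kr_smul, neg_one_smul, neg_one_smul, ← sub_eq_add_neg, ← sub_eq_add_neg] at h
  exact h

lemma kr_sub' (M : Matrix A A R) (N N' : Matrix B B R) : kr M (N - N') = kr M N - kr M N' := by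
  have h := kr_add' M N ((-1 : R) • N')
  rw [kr_smul', neg_one_smul, neg_one_smul, ← sub_eq_add_neg, ← sub_eq_add_neg] at h
  exact h

lemma kd_add (M M' : Matrix A A R) (N N' : Matrix B B R) :
    kd (M + M') (N + N') = kd M N + kd M' N' := by
  rw [kd, kd, kd, kr_add, kr_add']
  abel

lemma kd_smul (c : R) (M : Matrix A A R) (N : Matrix B B R) : kd (c • M) (c • N) = c • kd M N := by
  rw [kd, kd, kr_smul, kr_smul', smul_add]

lemma kd_br (M M' : Matrix A A R) (N N' : Matrix B B R) :
    kd (M * M' - M' * M) (N * N' - N' * N) = kd M N * kd M' N' - kd M' N' * kd M N := by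
  rw [kd, kd, kd, kr_sub, kr_sub', add_mul, mul_add, mul_add, add_mul, mul_add, mul_add]
  simp only [kr_mul, Matrix.mul_one, Matrix.one_mul]
  abel

lemma bl_add (M M' : Matrix A A R) (N N' : Matrix B B R) :
    bl (M + M') (N + N') = bl M N + bl M' N' := by
  rw [bl, bl, bl, Matrix.fromBlocks_add, add_zero, add_zero]

lemma bl_smul (c : R) (M : Matrix A A R) (N : Matrix B B R) : bl (c • M) (c • N) = c • bl M N := by
  rw [bl, bl, Matrix.fromBlocks_smul, smul_zero, smul_zero]

lemma bl_mul (M M' : Matrix A A R) (N N' : Matrix B B R) : bl M N * bl M' N' = bl (M * M') (N * N') := by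
  rw [bl, bl, bl, Matrix.fromBlocks_multiply]
  simp

lemma bl_br (M M' : Matrix A A R) (N N' : Matrix B B R) :
    bl (M * M' - M' * M) (N * N' - N' * N) = bl M N * bl M' N' - bl M' N' * bl M N := by
  have h := bl_add (M * M') ((-1 : R) • (M' * M)) (N * N') ((-1 : R) • (N' * N))
  rw [bl_smul, neg_one_smul, neg_one_smul, neg_one_smul, ← sub_eq_add_neg, ← sub_eq_add_neg,
    ← sub_eq_add_neg] at h
  rw [h, bl_mul, bl_mul]

end plain

variable {κ : Type} [Fintype κ] [DecidableEq κ]

section ring

variable {R : Type} [CommRing R]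

lemma act_one (t : Con) : act (1 : Matrix κ κ R) t = 1 := by
  induction t with
  | one => rfl
  | std => rfl
  | dual t ih =>
    change ((act (1 : Matrix κ κ R) t)⁻¹).transpose = _
    rw [ih, inv_one, transpose_one]
    rfl
  | tensor t s iht ihs => exact (congrArg₂ kr iht ihs).trans Matrix.one_kronecker_one
  | sum t s iht ihs => exact (congrArg₂ bl iht ihs).trans Matrix.fromBlocks_one

lemma act_mul (g h : Matrix κ κ R) (t : Con) : act (g * h) t = act g t * act h t := by
  induction t with
  | one => exact (Matrix.one_mul _).symm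
  | std => rfl
  | dual t ih =>
    change ((act (g * h) t)⁻¹).transpose = ((act g t)⁻¹).transpose * ((act h t)⁻¹).transpose
    rw [ih, Matrix.mul_inv_rev, transpose_mul]
  | tensor t s iht ihs => exact (congrArg₂ kr iht ihs).trans (kr_mul _ _ _ _).symm
  | sum t s iht ihs => exact (congrArg₂ bl iht ihs).trans (bl_mul _ _ _ _).symm

lemma act_mul_inv {g h : Matrix κ κ R} (hgh : g * h = 1) (t : Con) : act g t * act h t = 1 := by
  rw [← act_mul, hgh, act_one]

lemma act_inv {g h : Matrix κ κ R} (hgh : g * h = 1) (t : Con) : (act g t)⁻¹ = act h t :=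
  Matrix.inv_eq_right_inv (act_mul_inv hgh t)

/-- The derivative of the action. -/
def der (X : Matrix κ κ R) : ∀ t : Con, Matrix (Ix κ t) (Ix κ t) R
  | .one => (0 : Matrix Unit Unit R)
  | .std => X
  | .dual t => -(der X t).transpose
  | .tensor t s => kd (der X t) (der X s)
  | .sum t s => bl (der X t) (der X s)

lemma der_add (X Y : Matrix κ κ R) (t : Con) : der (X + Y) t = der X t + der Y t := by
  induction t with
  | one => exact (add_zero (0 : Matrix Unit Unit R)).symm
  | std => rfl
  | dual t ih =>
    change -(der (X + Y) t).transpose = -(der X t).transpose + -(der Y t).transpose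
    rw [ih, transpose_add, neg_add]
  | tensor t s iht ihs => exact (congrArg₂ kd iht ihs).trans (kd_add _ _ _ _)
  | sum t s iht ihs => exact (congrArg₂ bl iht ihs).trans (bl_add _ _ _ _)

lemma der_smul (c : R) (X : Matrix κ κ R) (t : Con) : der (c • X) t = c • der X t := by
  induction t with
  | one => exact (smul_zero (A := Matrix Unit Unit R) c).symm
  | std => rfl
  | dual t ih =>
    change -(der (c • X) t).transpose = c • -(der X t).transpose
    rw [ih, transpose_smul, smul_neg]
  | tensor t s iht ihs => exact (congrArg₂ kd iht ihs).trans (kd_smul _ _ _)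
  | sum t s iht ihs => exact (congrArg₂ bl iht ihs).trans (bl_smul _ _ _)

lemma der_zero (t : Con) : der (0 : Matrix κ κ R) t = 0 := by
  have h := der_smul (0 : R) (0 : Matrix κ κ R) t
  rwa [zero_smul, zero_smul] at h

lemma der_neg (X : Matrix κ κ R) (t : Con) : der (-X) t = -der X t := by
  have h := der_smul (-1 : R) X t
  rwa [neg_one_smul, neg_one_smul] at h

lemma der_sub (X Y : Matrix κ κ R) (t : Con) : der (X - Y) t = der X t - der Y t := by
  rw [sub_eq_add_neg, der_add, der_neg, ← sub_eq_add_neg]

/-- The derivative of the action is compatible with commutators. -/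
lemma der_br (X Y : Matrix κ κ R) (t : Con) :
    der (X * Y - Y * X) t = der X t * der Y t - der Y t * der X t := by
  induction t with
  | one => exact (by simp : (0 : Matrix Unit Unit R) = 0 * 0 - 0 * 0)
  | std => rfl
  | dual t ih =>
    change -(der (X * Y - Y * X) t).transpose =
      -(der X t).transpose * -(der Y t).transpose - -(der Y t).transpose * -(der X t).transpose
    rw [ih, neg_mul_neg, neg_mul_neg, ← transpose_mul, ← transpose_mul, transpose_sub, neg_sub]
  | tensor t s iht ihs => exact (congrArg₂ kd iht ihs).trans (kd_br _ _ _ _)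
  | sum t s iht ihs => exact (congrArg₂ bl iht ihs).trans (bl_br _ _ _ _)

/-- Additive maps commute with the derivative of the action. -/
lemma der_form {S : Type} [CommRing S] (f : R →+ S) (X : Matrix κ κ R) (t : Con) :
    der (X.map f) t = (der X t).map f := by
  induction t with
  | one => exact (by ext i j; simp : (0 : Matrix Unit Unit S) = (0 : Matrix Unit Unit R).map f)
  | std => rfl
  | dual t ih =>
    change -(der (X.map f) t).transpose = (-(der X t).transpose).map f
    rw [ih]
    ext i j
    simp
  | tensor t s iht ihs =>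
    refine (congrArg₂ kd iht ihs).trans ?_
    change kd _ _ = (kd (der X t) (der X s)).map f
    ext ⟨i, i'⟩ ⟨j, j'⟩
    simp only [kd, Matrix.add_apply, Matrix.kroneckerMap_apply, Matrix.one_apply, Matrix.map_apply]
    split_ifs <;> simp
  | sum t s iht ihs =>
    refine (congrArg₂ bl iht ihs).trans ?_
    change bl _ _ = (bl (der X t) (der X s)).map f
    ext (i | i) (j | j) <;> simp

lemma der_map {S : Type} [CommRing S] (f : R →+* S) (X : Matrix κ κ R) (t : Con) :
    der (X.map f) t = (der X t).map f := der_form f.toAddMonoidHom X t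

end ring

section deriv

variable {K : Type} [Field K] [Algebra K ℂ]

lemma mapd_mul {A : Type} [Fintype A] (δ : Derivation K ℂ ℂ) (M N : Matrix A A ℂ) :
    (M * N).map δ = M.map δ * N + M * N.map δ := by
  ext i j
  change δ ((M * N) i j) = (M.map δ * N) i j + (M * N.map δ) i j
  rw [Matrix.mul_apply, Matrix.mul_apply, Matrix.mul_apply, map_sum, ← Finset.sum_add_distrib]
  refine Finset.sum_congr rfl fun l _ => ?_
  rw [Derivation.leibniz, smul_eq_mul, smul_eq_mul]
  simp only [Matrix.map_apply]
  ring

lemma mapd_one {A : Type} [Fintype A] [DecidableEq A] (δ : Derivation K ℂ ℂ) :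
    (1 : Matrix A A ℂ).map δ = 0 := by
  ext i j
  rw [Matrix.map_apply, Matrix.one_apply]
  split_ifs
  · exact δ.map_one_eq_zero
  · exact map_zero δ

lemma mapd_inv {A : Type} [Fintype A] [DecidableEq A] (δ : Derivation K ℂ ℂ) {M D : Matrix A A ℂ}
    (hM : M * M⁻¹ = 1) (h : M.map δ = D * M) : (M⁻¹).map δ = -(M⁻¹ * D) := by
  have hM' : M⁻¹ * M = 1 := mul_eq_one_comm.1 hM
  have h1 : (M⁻¹ * M).map δ = 0 := by rw [hM', mapd_one]
  rw [mapd_mul, h] at h1
  have h2 := congrArg (fun Z => Z * M⁻¹) h1
  simp only [Matrix.add_mul, Matrix.zero_mul, Matrix.mul_assoc, hM, Matrix.mul_one] at h2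
  exact eq_neg_of_add_eq_zero_left h2

/-- The logarithmic derivative of the action. -/
theorem act_der (δ : Derivation K ℂ ℂ) {P Q X : Matrix κ κ ℂ} (hPQ : P * Q = 1)
    (h : P.map δ = X * P) (t : Con) : (act P t).map δ = der X t * act P t := by
  induction t with
  | one =>
    refine (mapd_one (A := Unit) δ).trans ?_
    exact (Matrix.zero_mul (1 : Matrix Unit Unit ℂ)).symm
  | std => exact h
  | dual t ih =>
    change (((act P t)⁻¹).transpose).map δ = -(der X t).transpose * ((act P t)⁻¹).transpose
    have h1 : act P t * (act P t)⁻¹ = 1 := by rw [act_inv hPQ, act_mul_inv hPQ]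
    rw [Matrix.transpose_map, mapd_inv δ h1 ih, Matrix.transpose_neg, Matrix.transpose_mul,
      Matrix.neg_mul]
  | tensor t s iht ihs =>
    change (kr (act P t) (act P s)).map δ = kd (der X t) (der X s) * kr (act P t) (act P s)
    have h1 : (kr (act P t) (act P s)).map δ =
        kr ((act P t).map δ) (act P s) + kr (act P t) ((act P s).map δ) := by
      ext ⟨i, i'⟩ ⟨j, j'⟩
      simp only [Matrix.map_apply, Matrix.kroneckerMap_apply, Matrix.add_apply]
      rw [Derivation.leibniz, smul_eq_mul, smul_eq_mul]
      ring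
    rw [h1, iht, ihs, kd, Matrix.add_mul, kr_mul, kr_mul, Matrix.one_mul, Matrix.one_mul]
  | sum t s iht ihs =>
    change (bl (act P t) (act P s)).map δ = bl (der X t) (der X s) * bl (act P t) (act P s)
    rw [bl_mul, ← iht, ← ihs]
    ext (i | i) (j | j) <;> simp

end deriv

end Pool.Agent.Q60.RB
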