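import Pool.Agent.Q60.RB.Main2

/-!
# Connectedness
-/

set_option linter.unusedSectionVars false

namespace Pool.Agent.Q60.RB

open MvPolynomial Matrix Module Pool.Agent.Q50.LR Pool.Agent.Q60.GL Pool.Agent.Q60.TD

variable {κ : Type} [Fintype κ] [DecidableEq κ]

/-- The coordinates of an invertible matrix and of its inverse. -/
def pt (g : GL κ ℂ) : κ × κ ⊕ κ × κ → ℂ :=
  Sum.elim (fun p => (g : Matrix κ κ ℂ) p.1 p.2) fun p => ((g⁻¹ : GL κ ℂ) : Matrix κ κ ℂ) p.1 p.2

lemma bl_vec {A B : Type} [Fintype A] [Fintype B] (M : Matrix A A ℂ) (N : Matrix B B ℂ)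
    (x : A → ℂ) (y : B → ℂ) : bl M N *ᵥ Sum.elim x y = Sum.elim (M *ᵥ x) (N *ᵥ y) := by
  rw [bl, Matrix.fromBlocks_mulVec, Sum.elim_comp_inl, Sum.elim_comp_inr, Matrix.zero_mulVec,
    Matrix.zero_mulVec, add_zero, zero_add]

/-- Every polynomial function is a matrix coefficient of a tensor construction. -/
theorem poly_rep (u : MvPolynomial (κ × κ ⊕ κ × κ) ℂ) : ∃ (t : Con) (a : Ix κ t → ℚ)
    (w : Ix κ t → ℂ), ∀ g : GL κ ℂ, eval (pt g) u =
      (fun i => (a i : ℂ)) ⬝ᵥ (act (g : Matrix κ κ ℂ) t *ᵥ w) := by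
  induction u using MvPolynomial.induction_on with
  | C c =>
    refine ⟨.one, fun _ => 1, fun _ => c, fun g => ?_⟩
    rw [eval_C]
    change c = (fun _ : Unit => ((1 : ℚ) : ℂ)) ⬝ᵥ ((1 : Matrix Unit Unit ℂ) *ᵥ fun _ => c)
    rw [Matrix.one_mulVec]
    simp [dotProduct]
  | add p q hp hq =>
    obtain ⟨t, a, w, h⟩ := hp
    obtain ⟨t', a', w', h'⟩ := hq
    refine ⟨.sum t t', (Sum.elim a a' : Ix κ t ⊕ Ix κ t' → ℚ),
      (Sum.elim w w' : Ix κ t ⊕ Ix κ t' → ℂ), fun g => ?_⟩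
    rw [map_add, h g, h' g]
    change _ = (fun i : Ix κ t ⊕ Ix κ t' => (((Sum.elim a a' : Ix κ t ⊕ Ix κ t' → ℚ) i : ℚ) : ℂ)) ⬝ᵥ
      (bl (act (g : Matrix κ κ ℂ) t) (act (g : Matrix κ κ ℂ) t') *ᵥ
        (Sum.elim w w' : Ix κ t ⊕ Ix κ t' → ℂ))
    rw [bl_vec, dotProduct, dotProduct, dotProduct, Fintype.sum_sum_type]
    rfl
  | mul_X p x hp =>
    obtain ⟨t, a, w, h⟩ := hp
    obtain ⟨t', a', w', h'⟩ : ∃ (t' : Con) (a' : Ix κ t' → ℚ) (w' : Ix κ t' → ℂ),
        ∀ g : GL κ ℂ, pt g x = (fun i => (a' i : ℂ)) ⬝ᵥ (act (g : Matrix κ κ ℂ) t' *ᵥ w') := by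
      rcases x with ⟨i, j⟩ | ⟨i, j⟩
      · refine ⟨.std, (Pi.single i 1 : κ → ℚ), (Pi.single j 1 : κ → ℂ), fun g => ?_⟩
        change (g : Matrix κ κ ℂ) i j = (fun k : κ => (((Pi.single i 1 : κ → ℚ) k : ℚ) : ℂ)) ⬝ᵥ
          ((g : Matrix κ κ ℂ) *ᵥ (Pi.single j 1 : κ → ℂ))
        have h1 : (fun k : κ => (((Pi.single i 1 : κ → ℚ) k : ℚ) : ℂ)) =
            (Pi.single i 1 : κ → ℂ) := by
          funext k
          by_cases hk : k = i
          · subst hk
            rw [Pi.single_eq_same, Pi.single_eq_same, Rat.cast_one]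
          · rw [Pi.single_eq_of_ne hk, Pi.single_eq_of_ne hk, Rat.cast_zero]
        rw [h1, single_dotProduct, one_mul, Matrix.mulVec_single_one]
        rfl
      · refine ⟨.dual .std, (Pi.single j 1 : κ → ℚ), (Pi.single i 1 : κ → ℂ), fun g => ?_⟩
        change ((g⁻¹ : GL κ ℂ) : Matrix κ κ ℂ) i j =
          (fun k : κ => (((Pi.single j 1 : κ → ℚ) k : ℚ) : ℂ)) ⬝ᵥ
          (((g : Matrix κ κ ℂ)⁻¹).transpose *ᵥ (Pi.single i 1 : κ → ℂ))
        have h1 : (fun k : κ => (((Pi.single j 1 : κ → ℚ) k : ℚ) : ℂ)) =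
            (Pi.single j 1 : κ → ℂ) := by
          funext k
          by_cases hk : k = j
          · subst hk
            rw [Pi.single_eq_same, Pi.single_eq_same, Rat.cast_one]
          · rw [Pi.single_eq_of_ne hk, Pi.single_eq_of_ne hk, Rat.cast_zero]
        rw [h1, single_dotProduct, one_mul, Matrix.mulVec_single_one, coe_inv']
        rfl
    refine ⟨.tensor t t', fun i : Ix κ t × Ix κ t' => a i.1 * a' i.2,
      fun i : Ix κ t × Ix κ t' => w i.1 * w' i.2, fun g => ?_⟩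
    rw [map_mul, eval_X, h g, h' g]
    change _ = (fun i : Ix κ t × Ix κ t' => ((a i.1 * a' i.2 : ℚ) : ℂ)) ⬝ᵥ
      (kr (act (g : Matrix κ κ ℂ) t) (act (g : Matrix κ κ ℂ) t') *ᵥ
        fun i : Ix κ t × Ix κ t' => w i.1 * w' i.2)
    have h1 : ∀ i : Ix κ t × Ix κ t', (kr (act (g : Matrix κ κ ℂ) t)
        (act (g : Matrix κ κ ℂ) t') *ᵥ fun i : Ix κ t × Ix κ t' => w i.1 * w' i.2) i =
        (act (g : Matrix κ κ ℂ) t *ᵥ w) i.1 * (act (g : Matrix κ κ ℂ) t' *ᵥ w') i.2 := by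
      intro i
      rw [Matrix.mulVec, Matrix.mulVec, Matrix.mulVec, dotProduct, dotProduct, dotProduct,
        Fintype.sum_prod_type, Finset.sum_mul_sum]
      refine Finset.sum_congr rfl fun j _ => Finset.sum_congr rfl fun k _ => ?_
      change act (g : Matrix κ κ ℂ) t i.1 j * act (g : Matrix κ κ ℂ) t' i.2 k * (w j * w' k) = _
      ring
    rw [dotProduct, dotProduct, dotProduct, Finset.sum_mul_sum, Fintype.sum_prod_type]
    refine Finset.sum_congr rfl fun j _ => Finset.sum_congr rfl fun k _ => ?_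
    rw [h1]
    push_cast
    ring

/-- Translation of polynomials. -/
noncomputable def trl (g : GL κ ℂ) :
    MvPolynomial (κ × κ ⊕ κ × κ) ℂ →ₐ[ℂ] MvPolynomial (κ × κ ⊕ κ × κ) ℂ :=
  aeval (Sum.elim
    (fun p => ∑ k, C (((g⁻¹ : GL κ ℂ) : Matrix κ κ ℂ) p.1 k) * X (Sum.inl (k, p.2)))
    fun p => ∑ k, X (Sum.inr (p.1, k)) * C ((g : Matrix κ κ ℂ) k p.2))

lemma eval_trl (g x : GL κ ℂ) (f : MvPolynomial (κ × κ ⊕ κ × κ) ℂ) :
    eval (pt x) (trl g f) = eval (pt (g⁻¹ * x)) f := by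
  induction f using MvPolynomial.induction_on with
  | C a =>
    rw [trl, aeval_C, eval_C]
    exact eval_C a
  | add p q hp hq => rw [map_add, map_add, map_add, hp, hq]
  | mul_X p i hp =>
    rw [map_mul, map_mul, map_mul, hp]
    congr 1
    rw [trl, aeval_X, eval_X]
    rcases i with ⟨i, j⟩ | ⟨i, j⟩
    · rw [Sum.elim_inl, map_sum]
      change _ = ((g⁻¹ * x : GL κ ℂ) : Matrix κ κ ℂ) i j
      rw [Units.val_mul, Matrix.mul_apply]
      refine Finset.sum_congr rfl fun k _ => ?_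
      rw [map_mul, eval_C, eval_X]
      rfl
    · rw [Sum.elim_inr, map_sum]
      change _ = (((g⁻¹ * x)⁻¹ : GL κ ℂ) : Matrix κ κ ℂ) i j
      rw [_root_.mul_inv_rev, inv_inv, Units.val_mul, Matrix.mul_apply]
      refine Finset.sum_congr rfl fun k _ => ?_
      rw [map_mul, eval_C, eval_X]
      rfl

/-- The function which is one on an algebraic subgroup of finite index and zero on the other cosets
is a polynomial. -/
theorem indicator {G H : Subgroup (GL κ ℂ)} (hH : IsAlgebraic H)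
    (hfin : (H.subgroupOf G).FiniteIndex) : ∃ u : MvPolynomial (κ × κ ⊕ κ × κ) ℂ,
      (∀ g ∈ H, eval (pt g) u = 1) ∧ ∀ g ∈ G, g ∉ H → eval (pt g) u = 0 := by
  classical
  obtain ⟨S, hS⟩ := hH
  have hS' : ∀ g : GL κ ℂ, g ∈ H ↔ ∀ f ∈ S, eval (pt g) f = 0 := hS
  let I₁ : Ideal (MvPolynomial (κ × κ ⊕ κ × κ) ℂ) :=
    { carrier := {f | ∀ g ∈ H, eval (pt g) f = 0}
      add_mem' := fun {a b} ha hb g hg => by rw [map_add, ha g hg, hb g hg, add_zero]
      zero_mem' := fun g _ => map_zero _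
      smul_mem' := fun c f hf g hg => by rw [smul_eq_mul, map_mul, hf g hg, mul_zero] }
  let I₂ : Ideal (MvPolynomial (κ × κ ⊕ κ × κ) ℂ) :=
    { carrier := {f | ∀ g ∈ G, g ∉ H → eval (pt g) f = 0}
      add_mem' := fun {a b} ha hb g hg hn => by rw [map_add, ha g hg hn, hb g hg hn, add_zero]
      zero_mem' := fun g _ _ => map_zero _
      smul_mem' := fun c f hf g hg hn => by rw [smul_eq_mul, map_mul, hf g hg hn, mul_zero] }
  have htop : I₁ ⊔ I₂ = ⊤ := by
    by_contra hne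
    obtain ⟨m, hm, hle⟩ := Ideal.exists_le_maximal _ hne
    obtain ⟨x, hx⟩ := isMaximal_iff_eq_vanishingIdeal_singleton.1 hm
    have hev : ∀ f ∈ I₁ ⊔ I₂, eval x f = 0 := by
      intro f hf
      have h1 := hle hf
      rw [hx, mem_vanishingIdeal_singleton_iff] at h1
      rwa [aeval_eq_eval] at h1
    -- the point is an invertible matrix
    let A : Matrix κ κ ℂ := Matrix.of fun i j => x (Sum.inl (i, j))
    let B : Matrix κ κ ℂ := Matrix.of fun i j => x (Sum.inr (i, j))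
    have hAB : A * B = 1 := by
      ext i j
      have h1 := hev (∑ k, X (Sum.inl (i, k)) * X (Sum.inr (k, j)) -
          C ((1 : Matrix κ κ ℂ) i j)) (Ideal.mem_sup_left fun g _ => by
        rw [map_sub, map_sum, eval_C, sub_eq_zero]
        have h2 := congrFun (congrFun (gl_mul_inv g) i) j
        rw [Matrix.mul_apply] at h2
        rw [← h2]
        refine Finset.sum_congr rfl fun k _ => ?_
        rw [map_mul, eval_X, eval_X]
        rfl)
      rw [map_sub, map_sum, eval_C, sub_eq_zero] at h1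
      rw [Matrix.mul_apply, ← h1]
      refine Finset.sum_congr rfl fun k _ => ?_
      rw [map_mul, eval_X, eval_X]
      rfl
    let h : GL κ ℂ := ⟨A, B, hAB, mul_eq_one_comm.1 hAB⟩
    have hpt : pt h = x := by
      funext p
      rcases p with p | p <;> rfl
    have hhH : h ∈ H := by
      rw [hS', hpt]
      intro f hf
      exact hev f (Ideal.mem_sup_left fun g hg => (hS' g).1 hg f hf)
    -- a polynomial which vanishes on the other cosets and not at this point
    have hfin' : Finite (G ⧸ H.subgroupOf G) := Subgroup.finite_quotient_of_finiteIndex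
    have := Fintype.ofFinite (G ⧸ H.subgroupOf G)
    have hp : ∀ q : G ⧸ H.subgroupOf G, ∃ f : MvPolynomial (κ × κ ⊕ κ × κ) ℂ,
        ((q.out : GL κ ℂ) ∉ H → (∀ g ∈ H, eval (pt g) f = 0) ∧
          eval (pt ((q.out : GL κ ℂ)⁻¹ * h)) f ≠ 0) ∧ ((q.out : GL κ ℂ) ∈ H → f = 1) := by
      intro q
      by_cases hq : (q.out : GL κ ℂ) ∈ H
      · exact ⟨1, fun hn => absurd hq hn, fun _ => rfl⟩
      · have h1 : (q.out : GL κ ℂ)⁻¹ * h ∉ H := by
          intro h2
          apply hq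
          have h3 := H.mul_mem h2 (H.inv_mem hhH)
          rw [mul_inv_cancel_right] at h3
          exact (H.inv_mem_iff).1 h3
        rw [hS'] at h1
        push Not at h1
        obtain ⟨f, hf, hne⟩ := h1
        exact ⟨f, fun _ => ⟨fun g hg => (hS' g).1 hg f hf, hne⟩, fun h => absurd h hq⟩
    choose F hF1 hF2 using hp
    have h1 := hev (∏ q : G ⧸ H.subgroupOf G, trl (q.out : GL κ ℂ) (F q))
      (Ideal.mem_sup_right fun g hg hn => by
        rw [map_prod]
        let q : G ⧸ H.subgroupOf G := QuotientGroup.mk (⟨g, hg⟩ : G)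
        have h2 : (q.out : GL κ ℂ)⁻¹ * g ∈ H := by
          have h3 : QuotientGroup.mk q.out = (QuotientGroup.mk (⟨g, hg⟩ : G) :
            G ⧸ H.subgroupOf G) := Quotient.out_eq q
          have h4 := QuotientGroup.eq.1 h3
          rw [Subgroup.mem_subgroupOf] at h4
          exact h4
        have h3 : (q.out : GL κ ℂ) ∉ H := by
          intro h4
          apply hn
          have h5 := H.mul_mem h4 h2
          rwa [mul_inv_cancel_left] at h5
        refine Finset.prod_eq_zero (Finset.mem_univ q) ?_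
        rw [eval_trl]
        exact (hF1 q h3).1 _ h2)
    rw [map_prod, Finset.prod_eq_zero_iff] at h1
    obtain ⟨q, _, hq⟩ := h1
    rw [← hpt, eval_trl] at hq
    by_cases hqH : (q.out : GL κ ℂ) ∈ H
    · rw [hF2 q hqH, map_one] at hq
      exact one_ne_zero hq
    · exact (hF1 q hqH).2 hq
  have h1 : (1 : MvPolynomial (κ × κ ⊕ κ × κ) ℂ) ∈ I₁ ⊔ I₂ := by
    rw [htop]
    exact Submodule.mem_top
  obtain ⟨a, ha, b, hb, hab⟩ := Submodule.mem_sup.1 h1
  refine ⟨b, fun g hg => ?_, hb⟩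
  have h2 := congrArg (eval (pt g)) hab
  rw [map_add, ha g hg, zero_add, map_one] at h2
  exact h2

end Pool.Agent.Q60.RB
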