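import Mathlib

/-!
# De Rham-Betti objects and their tensor constructions
-/

namespace Pool.Agent.Q60.RB

/-- The tensor constructions: expressions in an object `M`, built from the unit object and `M` by
duals, tensor products and direct sums. -/
inductive Con : Type
  /-- the unit object -/
  | one
  /-- the object `M` -/
  | std
  /-- the dual -/
  | dual (t : Con)
  /-- the tensor product -/
  | tensor (t s : Con)
  /-- the direct sum -/
  | sum (t s : Con)

/-- The index set of the basis of `t(M)`, if `κ` is the index set of a basis of `M`. -/
def Ix (κ : Type) : Con → Type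
  | .one => Unit
  | .std => κ
  | .dual t => Ix κ t
  | .tensor t s => Ix κ t × Ix κ s
  | .sum t s => Ix κ t ⊕ Ix κ s

variable {κ : Type} [Fintype κ] [DecidableEq κ]

instance instFintypeIx : ∀ t : Con, Fintype (Ix κ t)
  | .one => inferInstanceAs (Fintype Unit)
  | .std => inferInstanceAs (Fintype κ)
  | .dual t => instFintypeIx t
  | .tensor t s =>
    have := instFintypeIx t
    have := instFintypeIx s
    inferInstanceAs (Fintype (Ix κ t × Ix κ s))
  | .sum t s =>
    have := instFintypeIx t
    have := instFintypeIx s
    inferInstanceAs (Fintype (Ix κ t ⊕ Ix κ s))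

instance instDecidableEqIx : ∀ t : Con, DecidableEq (Ix κ t)
  | .one => inferInstanceAs (DecidableEq Unit)
  | .std => inferInstanceAs (DecidableEq κ)
  | .dual t => instDecidableEqIx t
  | .tensor t s =>
    have := instDecidableEqIx t
    have := instDecidableEqIx s
    inferInstanceAs (DecidableEq (Ix κ t × Ix κ s))
  | .sum t s =>
    have := instDecidableEqIx t
    have := instDecidableEqIx s
    inferInstanceAs (DecidableEq (Ix κ t ⊕ Ix κ s))

/-- The matrix by which the invertible matrix `g` acts on `t(M)`. -/
noncomputable def act {R : Type} [CommRing R] (g : Matrix κ κ R) :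
    ∀ t : Con, Matrix (Ix κ t) (Ix κ t) R
  | .one => (1 : Matrix Unit Unit R)
  | .std => g
  | .dual t => ((act g t)⁻¹).transpose
  | .tensor t s => Matrix.kroneckerMap (· * ·) (act g t) (act g s)
  | .sum t s => Matrix.fromBlocks (act g t) 0 0 (act g s)

end Pool.Agent.Q60.RB
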