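import Pool.Agent.Q60.RB.Act

/-!
# Torsors of de Rham-Betti objects
-/

namespace Pool.Agent.Q60.RB

open Matrix

/-- The complex span of a space of vectors with coordinates in `F`. -/
def cspan {F B : Type} [Field F] [Algebra F ℂ] (N : Submodule F (B → F)) :
    Submodule ℂ (B → ℂ) :=
  Submodule.span ℂ {x | ∃ v ∈ N, x = fun i => algebraMap F ℂ (v i)}

variable {κ : Type} [Fintype κ] [DecidableEq κ] (K : Type) [Field K] [Algebra K ℂ]

/-- The matrix `f`, acting on `t(M)`, carries the subspace `N'` (de Rham) to the subspace `N`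
(Betti). For the period matrix `P` of `M` this means: `(N', N)` is a subobject of `t(M)`. -/
def Carries (f : GL κ ℂ) (t : Con) (N' : Submodule K (Ix κ t → K))
    (N : Submodule ℚ (Ix κ t → ℚ)) : Prop :=
  (cspan N').map (act (f : Matrix κ κ ℂ) t).mulVecLin = cspan N

/-- The matrix `f`, acting on `t(M)`, maps the vector `v'` (de Rham) to the vector `v` (Betti). For
the period matrix `P` of `M` this means: `(v', v)` is a de Rham-Betti class on `t(M)`. -/
def MapsTo (f : GL κ ℂ) (t : Con) (v' : Ix κ t → K) (v : Ix κ t → ℚ) : Prop :=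
  act (f : Matrix κ κ ℂ) t *ᵥ (fun i => algebraMap K ℂ (v' i)) = fun i => (v i : ℂ)

/-- The complex points of the torsor `Ω^dRB_M`, `P` the period matrix of `M`: the matrices which
carry the de Rham part of every subobject of every `t(M)` to its Betti part. -/
def torsorDRB (P : GL κ ℂ) : Set (GL κ ℂ) :=
  {f | ∀ (t : Con) (N' : Submodule K (Ix κ t → K)) (N : Submodule ℚ (Ix κ t → ℚ)),
    Carries K P t N' N → Carries K f t N' N}

/-- The complex points of the torsor of a set `C` of de Rham-Betti classes (for the motivated classes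
it is `Ω^And_M`, for the algebraic classes `Ω^mot_M`): the matrices which map the de Rham part of
every class in `C` to its Betti part. -/
def torsorOf (P : GL κ ℂ) (C : ∀ t : Con, Set (Ix κ t → ℚ)) : Set (GL κ ℂ) :=
  {f | ∀ (t : Con), ∀ v ∈ C t, ∀ v' : Ix κ t → K, MapsTo K P t v' v → MapsTo K f t v' v}

variable {K}

/-- The complex points of the group of the classes in `C` (for the motivated classes it is the
motivic Galois group of `M`): the matrices which fix all classes in `C`. -/
def group (C : ∀ t : Con, Set (Ix κ t → ℚ)) : Subgroup (GL κ ℂ) where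
  carrier := {g | ∀ (t : Con), ∀ v ∈ C t,
    act (g : Matrix κ κ ℂ) t *ᵥ (fun i => (v i : ℂ)) = fun i => (v i : ℂ)}
  one_mem' t v _ := by rw [Units.val_one, act_one, one_mulVec]
  mul_mem' {g h} hg hh t v hv := by
    rw [Units.val_mul, act_mul, ← mulVec_mulVec, hh t v hv, hg t v hv]
  inv_mem' {g} hg t v hv := by
    have h1 : act ((g⁻¹ : GL κ ℂ) : Matrix κ κ ℂ) t * act (g : Matrix κ κ ℂ) t = 1 :=
      act_mul_inv (by rw [← Units.val_mul, inv_mul_cancel, Units.val_one]) t
    conv_lhs => rw [← hg t v hv]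
    rw [mulVec_mulVec, h1, one_mulVec]

/-- The subgroup is algebraic: it is given by polynomial equations between the entries of `g` and of
its inverse. -/
def IsAlgebraic (H : Subgroup (GL κ ℂ)) : Prop :=
  ∃ S : Set (MvPolynomial (κ × κ ⊕ κ × κ) ℂ), ∀ g : GL κ ℂ, g ∈ H ↔ ∀ f ∈ S,
    MvPolynomial.eval (Sum.elim (fun p => (g : Matrix κ κ ℂ) p.1 p.2)
      fun p => ((g⁻¹ : GL κ ℂ) : Matrix κ κ ℂ) p.1 p.2) f = 0

/-- The algebraic group `G` is connected: it has no proper algebraic subgroup of finite index. -/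
def IsConnected (G : Subgroup (GL κ ℂ)) : Prop :=
  ∀ H : Subgroup (GL κ ℂ), IsAlgebraic H → H ≤ G → (H.subgroupOf G).FiniteIndex → H = G

/-- The matrix is a scalar. -/
def IsScalar (g : Matrix κ κ ℂ) : Prop := ∃ c : ℂ, g = c • 1

/-- Up to a finite group, the centre of `G` consists of scalars. -/
def CentreIsScalar (G : Subgroup (GL κ ℂ)) : Prop :=
  ∃ n : ℕ, 0 < n ∧ ∀ z ∈ G, (∀ g ∈ G, z * g = g * z) → IsScalar ((z : Matrix κ κ ℂ) ^ n)

/-- `G` contains all homotheties. -/
def ContainsScalars (G : Subgroup (GL κ ℂ)) : Prop :=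
  ∀ g : GL κ ℂ, IsScalar (g : Matrix κ κ ℂ) → g ∈ G

/-- The group `G` stabilises the rational subspace `N` of `t(M)`. -/
def Stabilises (G : Subgroup (GL κ ℂ)) (t : Con) (N : Submodule ℚ (Ix κ t → ℚ)) : Prop :=
  ∀ g ∈ G, ∀ x ∈ cspan N, act (g : Matrix κ κ ℂ) t *ᵥ x ∈ cspan N

/-- The properties of the motivated classes: every rational vector of a tensor construction which is
fixed by the group is one of the classes, and every stable subspace of `M` has a stable
complement. -/
structure IsMotivic (C : ∀ t : Con, Set (Ix κ t → ℚ)) : Prop where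
  fixed : ∀ (t : Con) (v : Ix κ t → ℚ), (∀ g ∈ group C,
    act (g : Matrix κ κ ℂ) t *ᵥ (fun i => (v i : ℂ)) = fun i => (v i : ℂ)) → v ∈ C t
  semisimple : ∀ N : Submodule ℚ (Ix κ Con.std → ℚ), Stabilises (group C) Con.std N →
    ∃ N₂ : Submodule ℚ (Ix κ Con.std → ℚ), Stabilises (group C) Con.std N₂ ∧ IsCompl N N₂

/-- The endomorphisms of the endomorphisms of `M`: the tensor construction
`(M ⊗ M^∨) ⊗ (M ⊗ M^∨)^∨`. -/
def four : Con := .tensor (.tensor .std (.dual .std)) (.dual (.tensor .std (.dual .std)))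

variable (K)

/-- `M` is a semisimple de Rham-Betti object: every subobject has a complement. -/
def IsSemisimple (P : GL κ ℂ) : Prop :=
  ∀ (N' : Submodule K (Ix κ Con.std → K)) (N : Submodule ℚ (Ix κ Con.std → ℚ)),
    Carries K P Con.std N' N → ∃ (N₂' : Submodule K (Ix κ Con.std → K))
      (N₂ : Submodule ℚ (Ix κ Con.std → ℚ)), Carries K P Con.std N₂' N₂ ∧ IsCompl N N₂

/-- Every de Rham-Betti class on `(M ⊗ M^∨) ⊗ (M ⊗ M^∨)^∨` is in `C`. -/
def FullInDegreeFour (P : GL κ ℂ) (C : ∀ t : Con, Set (Ix κ t → ℚ)) : Prop :=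
  ∀ (v' : Ix κ four → K) (v : Ix κ four → ℚ), MapsTo K P four v' v → v ∈ C four

end Pool.Agent.Q60.RB
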