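import Pool.Agent.Q60.RB.Pol
import Pool.Agent.Q60.RB.Stm

/-!
# Subspaces which are stable for the Lie algebra of a group
-/

set_option linter.unusedSectionVars false

namespace Pool.Agent.Q60.RB

open MvPolynomial Matrix Module Pool.Agent.Q60.ED Pool.Agent.Q60.GL

variable {κ : Type} [Fintype κ] [DecidableEq κ]

lemma coe_mul_inv (g : GL κ ℂ) : (g : Matrix κ κ ℂ) * ((g⁻¹ : GL κ ℂ) : Matrix κ κ ℂ) = 1 := by
  rw [← Units.val_mul, mul_inv_cancel, Units.val_one]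

lemma coe_inv_mul (g : GL κ ℂ) : ((g⁻¹ : GL κ ℂ) : Matrix κ κ ℂ) * (g : Matrix κ κ ℂ) = 1 := by
  rw [← Units.val_mul, inv_mul_cancel, Units.val_one]

/-- The representation by blocks. -/
def rp (G : Subgroup (GL κ ℂ)) : G →* Matrix (κ ⊕ κ) (κ ⊕ κ) ℂ where
  toFun g := blk ((g : GL κ ℂ) : Matrix κ κ ℂ) (((g : GL κ ℂ)⁻¹ : GL κ ℂ) : Matrix κ κ ℂ)
  map_one' := by
    rw [OneMemClass.coe_one, inv_one, Units.val_one, blk, Matrix.transpose_one]
    exact Matrix.fromBlocks_one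
  map_mul' g h := by
    rw [Subgroup.coe_mul, _root_.mul_inv_rev, Units.val_mul, Units.val_mul, blk, blk, blk,
      Matrix.transpose_mul]
    exact (bl_mul _ _ _ _).symm

lemma blk_one : blk (1 : Matrix κ κ ℂ) 1 = 1 := by
  rw [blk, Matrix.transpose_one]
  exact Matrix.fromBlocks_one

variable {G : Subgroup (GL κ ℂ)}

/-- Tangent matrices consist of a matrix and the negative of its transpose. -/
lemma tangent_shape {A : Matrix (κ ⊕ κ) (κ ⊕ κ) ℂ} (hA : Tg (VG (rp G) ⊤) A) :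
    A = bl A.toBlocks₁₁ (-A.toBlocks₁₁.transpose) := by
  have hT : ∀ f : MvPolynomial (Vr κ) ℂ, f ∈ VG (rp G) ⊤ →
      evM (1 : Matrix (κ ⊕ κ) (κ ⊕ κ) ℂ) (dA A f) = 0 := fun f hf => by
    rw [evM_dA]
    exact hA f hf
  have h1 : ∀ i j : κ, A (Sum.inl i) (Sum.inr j) = 0 := by
    intro i j
    have h := hT (X (Sum.inl i, Sum.inr j)) (mem_VG.2 fun s _ => by
      rw [evM_X]
      rfl)
    rw [dA_X, map_sum, Finset.sum_eq_single (Sum.inl i)] at h
    · rw [map_mul, evM_X, evM_C] at h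
      simpa using h
    · intro b _ hb
      rw [map_mul, evM_X, evM_C, Matrix.one_apply_ne (Ne.symm hb), zero_mul]
    · exact fun h => absurd (Finset.mem_univ _) h
  have h2 : ∀ i j : κ, A (Sum.inr i) (Sum.inl j) = 0 := by
    intro i j
    have h := hT (X (Sum.inr i, Sum.inl j)) (mem_VG.2 fun s _ => by
      rw [evM_X]
      rfl)
    rw [dA_X, map_sum, Finset.sum_eq_single (Sum.inr i)] at h
    · rw [map_mul, evM_X, evM_C] at h
      simpa using h
    · intro b _ hb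
      rw [map_mul, evM_X, evM_C, Matrix.one_apply_ne (Ne.symm hb), zero_mul]
    · exact fun h => absurd (Finset.mem_univ _) h
  have hX : ∀ p : Vr κ, evM (1 : Matrix (κ ⊕ κ) (κ ⊕ κ) ℂ) (dA A (X p)) = A p.1 p.2 := by
    intro p
    rw [dA_X, map_sum, Finset.sum_eq_single p.1]
    · rw [map_mul, evM_X, evM_C, Matrix.one_apply_eq, one_mul]
    · intro b _ hb
      rw [map_mul, evM_X, evM_C, Matrix.one_apply_ne (Ne.symm hb), zero_mul]
    · exact fun h => absurd (Finset.mem_univ _) h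
  have h3 : ∀ i j : κ, A (Sum.inl i) (Sum.inl j) + A (Sum.inr j) (Sum.inr i) = 0 := by
    intro i j
    have h := hT (∑ k : κ, X (Sum.inl i, Sum.inl k) * X (Sum.inr j, Sum.inr k) -
        C ((1 : Matrix κ κ ℂ) i j)) (mem_VG.2 fun s _ => by
      rw [map_sub, map_sum, evM_C]
      have h4 := congrFun (congrFun (coe_mul_inv (s : GL κ ℂ)) i) j
      rw [Matrix.mul_apply] at h4
      rw [sub_eq_zero, ← h4]
      refine Finset.sum_congr rfl fun k _ => ?_
      rw [map_mul, evM_X, evM_X]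
      rfl)
    rw [map_sub, dA_C, sub_zero, map_sum, map_sum] at h
    have h5 : ∀ k : κ, evM (1 : Matrix (κ ⊕ κ) (κ ⊕ κ) ℂ)
        (dA A (X (Sum.inl i, Sum.inl k) * X (Sum.inr j, Sum.inr k))) =
        (1 : Matrix κ κ ℂ) i k * A (Sum.inr j) (Sum.inr k) +
          (1 : Matrix κ κ ℂ) j k * A (Sum.inl i) (Sum.inl k) := by
      intro k
      rw [Derivation.leibniz, smul_eq_mul, smul_eq_mul, map_add, map_mul, map_mul, hX, hX, evM_X,
        evM_X]
      have h6 : (1 : Matrix (κ ⊕ κ) (κ ⊕ κ) ℂ) (Sum.inl i) (Sum.inl k) =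
          (1 : Matrix κ κ ℂ) i k := by
        rw [Matrix.one_apply, Matrix.one_apply]
        simp
      have h7 : (1 : Matrix (κ ⊕ κ) (κ ⊕ κ) ℂ) (Sum.inr j) (Sum.inr k) =
          (1 : Matrix κ κ ℂ) j k := by
        rw [Matrix.one_apply, Matrix.one_apply]
        simp
      rw [h6, h7]
    rw [Finset.sum_congr rfl fun k _ => h5 k, Finset.sum_add_distrib] at h
    simp only [Matrix.one_apply, ite_mul, one_mul, zero_mul, Finset.sum_ite_eq, Finset.mem_univ,
      if_true] at h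
    rw [add_comm]
    exact h
  ext (i | i) (j | j)
  · rfl
  · exact h1 i j
  · exact h2 i j
  · have h := h3 j i
    change A (Sum.inr i) (Sum.inr j) = -(A (Sum.inl j) (Sum.inl i))
    linear_combination h

/-- Tangent matrices kill the fixed vectors. -/
lemma tangent_kills {A : Matrix (κ ⊕ κ) (κ ⊕ κ) ℂ} (hA : Tg (VG (rp G) ⊤) A) {t : Con}
    {w : Ix κ t → ℂ} (hw : ∀ g ∈ G, act (g : Matrix κ κ ℂ) t *ᵥ w = w) :
    der A.toBlocks₁₁ t *ᵥ w = 0 := by
  funext i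
  have h1 : pfn (Pi.single i 1) w - C (w i) ∈ VG (rp G) ⊤ := by
    rw [mem_VG]
    intro s _
    have h2 : evM (rp G s) (pfn (Pi.single i 1) w) = Pi.single i 1 ⬝ᵥ
        (act ((s : GL κ ℂ) : Matrix κ κ ℂ) t *ᵥ w) := ev_pfn (coe_mul_inv _) _ _
    rw [map_sub, evM_C, h2, hw _ s.2, single_dotProduct, one_mul, sub_self]
  have h2 : evM (1 : Matrix (κ ⊕ κ) (κ ⊕ κ) ℂ)
      (dA A (pfn (Pi.single i 1) w - C (w i))) = 0 := by
    rw [evM_dA]
    exact hA _ h1
  rw [map_sub, dA_C, sub_zero, tangent_shape hA, dA_pfn, ← blk_one, ev_pfn (Matrix.one_mul 1),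
    act_one, Matrix.one_mulVec, single_dotProduct, one_mul] at h2
  exact h2

lemma sep {B : Type} [Fintype B] [DecidableEq B] {W : Submodule ℂ (B → ℂ)} {x : B → ℂ} :
    x ∈ W ↔ ∀ φ : B → ℂ, (∀ w ∈ W, φ ⬝ᵥ w = 0) → φ ⬝ᵥ x = 0 := by
  refine ⟨fun hx φ hφ => hφ x hx, fun h => ?_⟩
  by_contra hcon
  obtain ⟨f, hf, hf'⟩ := Submodule.exists_le_ker_of_notMem hcon
  have hfs : ∀ x : B → ℂ, f x = (fun i => f (Pi.single i 1)) ⬝ᵥ x := by
    intro x
    have h1 : x = ∑ i, x i • (Pi.single i 1 : B → ℂ) := by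
      funext j
      rw [Finset.sum_apply, Finset.sum_eq_single j]
      · rw [Pi.smul_apply, Pi.single_eq_same, smul_eq_mul, mul_one]
      · intro i _ hi
        rw [Pi.smul_apply, Pi.single_eq_of_ne (Ne.symm hi), smul_zero]
      · intro h
        exact absurd (Finset.mem_univ _) h
    conv_lhs => rw [h1]
    rw [map_sum, dotProduct]
    refine Finset.sum_congr rfl fun i _ => ?_
    rw [map_smul, smul_eq_mul, mul_comm]
  apply hf
  rw [hfs]
  refine h _ fun w hw => ?_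
  rw [← hfs]
  exact hf' hw

/-- The stabiliser of a subspace. -/
def stb (t : Con) (W : Submodule ℂ (Ix κ t → ℂ)) : Subgroup (GL κ ℂ) where
  carrier := {g | ∀ v, v ∈ W ↔ act (g : Matrix κ κ ℂ) t *ᵥ v ∈ W}
  one_mem' v := by rw [Units.val_one, act_one, one_mulVec]
  mul_mem' {g h} hg hh v := by
    rw [Units.val_mul, act_mul, ← mulVec_mulVec, ← hg, ← hh]
  inv_mem' {g} hg v := by
    rw [hg (act ((g⁻¹ : GL κ ℂ) : Matrix κ κ ℂ) t *ᵥ v), mulVec_mulVec,
      act_mul_inv (coe_mul_inv g), one_mulVec]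

lemma mem_stb {t : Con} {W : Submodule ℂ (Ix κ t → ℂ)} {g : GL κ ℂ}
    (h : ∀ v ∈ W, act (g : Matrix κ κ ℂ) t *ᵥ v ∈ W) : g ∈ stb t W := by
  intro v
  refine ⟨fun hv => h v hv, fun hv => ?_⟩
  let L : W →ₗ[ℂ] W := (Matrix.toLin' (act (g : Matrix κ κ ℂ) t)).restrict h
  have hcan : ∀ x : Ix κ t → ℂ, act ((g⁻¹ : GL κ ℂ) : Matrix κ κ ℂ) t *ᵥ
      (act (g : Matrix κ κ ℂ) t *ᵥ x) = x := fun x => by
    rw [mulVec_mulVec, act_mul_inv (coe_inv_mul g), one_mulVec]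
  have hinj : Function.Injective L := by
    intro x y hxy
    apply Subtype.ext
    have h2 : act (g : Matrix κ κ ℂ) t *ᵥ (x : Ix κ t → ℂ) =
        act (g : Matrix κ κ ℂ) t *ᵥ (y : Ix κ t → ℂ) := congrArg Subtype.val hxy
    rw [← hcan x, h2, hcan]
  obtain ⟨x, hx⟩ := LinearMap.surjective_of_injective hinj ⟨_, hv⟩
  have h2 : act (g : Matrix κ κ ℂ) t *ᵥ (x : Ix κ t → ℂ) = act (g : Matrix κ κ ℂ) t *ᵥ v :=
    congrArg Subtype.val hx
  have h3 : (x : Ix κ t → ℂ) = v := by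
    rw [← hcan x, h2, hcan]
  rw [← h3]
  exact x.2

/-- **Subspaces which are stable for all matrices killing the fixed vectors of `G` are stable for a
subgroup of finite index of `G`.** -/
theorem stab_fin {t : Con} {W : Submodule ℂ (Ix κ t → ℂ)}
    (h : ∀ Y : Matrix κ κ ℂ, (∀ (s : Con) (w : Ix κ s → ℂ),
      (∀ g ∈ G, act (g : Matrix κ κ ℂ) s *ᵥ w = w) → der Y s *ᵥ w = 0) →
      ∀ v ∈ W, der Y t *ᵥ v ∈ W) :
    ((stb t W ⊓ G).subgroupOf G).FiniteIndex := by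
  classical
  obtain ⟨W', hc⟩ := Submodule.exists_isCompl W
  let p := Submodule.projection W W' hc
  have hp2 : ∀ v, v ∈ W ↔ p v = v := fun v => (Submodule.projection_eq_self_iff hc v).symm
  let φ : Ix κ t → Ix κ t → ℂ := fun I => fun j =>
    ((Pi.single j 1 : Ix κ t → ℂ) - p (Pi.single j 1)) I
  have hφs : ∀ (I : Ix κ t) (x : Ix κ t → ℂ), φ I ⬝ᵥ x = (x - p x) I := by
    intro I x
    have h1 : x = ∑ i, x i • (Pi.single i 1 : Ix κ t → ℂ) := by
      funext j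
      rw [Finset.sum_apply, Finset.sum_eq_single j]
      · rw [Pi.smul_apply, Pi.single_eq_same, smul_eq_mul, mul_one]
      · intro i _ hi
        rw [Pi.smul_apply, Pi.single_eq_of_ne (Ne.symm hi), smul_zero]
      · intro h
        exact absurd (Finset.mem_univ _) h
    have h2 : x - p x = ∑ i, x i • (Pi.single i 1 - p (Pi.single i 1)) := by
      conv_lhs => rw [h1]
      rw [map_sum, ← Finset.sum_sub_distrib]
      refine Finset.sum_congr rfl fun i _ => ?_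
      rw [map_smul, smul_sub]
    rw [h2, Finset.sum_apply, dotProduct]
    refine Finset.sum_congr rfl fun i _ => ?_
    rw [Pi.smul_apply, smul_eq_mul, mul_comm]
  have hφ : ∀ v, (∀ I, φ I ⬝ᵥ v = 0) ↔ v ∈ W := by
    intro v
    rw [hp2]
    constructor
    · intro h1
      funext I
      have h2 := h1 I
      rw [hφs, Pi.sub_apply] at h2
      exact (sub_eq_zero.1 h2).symm
    · intro h1 I
      rw [hφs, h1, sub_self]
      rfl
  let b := Module.finBasis ℂ W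
  have hsum : ∀ v : W, ∑ k, b.repr v k • (b k : Ix κ t → ℂ) = v := by
    intro v
    have h3 := congrArg Subtype.val (b.sum_repr v)
    rw [Submodule.coe_sum] at h3
    exact h3
  let F : (Ix κ t × Fin (finrank ℂ W)) → MvPolynomial (Vr κ) ℂ :=
    fun x => pfn (φ x.1) (b x.2 : Ix κ t → ℂ)
  obtain ⟨u, hu1, hu⟩ := exists_unit_family (VG_le (ρ := rp G) ⊤)
    (fun A hA f hf => dA_VG (ρ := rp G) A hA f hf) F
    (fun x => by
      rw [mem_P1, ← blk_one, ev_pfn (Matrix.one_mul 1), act_one, Matrix.one_mulVec]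
      exact (hφ _).2 (b x.2).2 x.1)
    (fun A hA x => by
      have hsh := tangent_shape hA
      have h0 : dA A (F x) = pfn (φ x.1) (der A.toBlocks₁₁ t *ᵥ (b x.2 : Ix κ t → ℂ)) := by
        conv_lhs => rw [hsh]
        exact dA_pfn _ _ _
      rw [h0]
      have h1 : der A.toBlocks₁₁ t *ᵥ (b x.2 : Ix κ t → ℂ) ∈ W :=
        h _ (fun s w hw => tangent_kills hA hw) _ (b x.2).2
      have h2 : der A.toBlocks₁₁ t *ᵥ (b x.2 : Ix κ t → ℂ) =
          ∑ k, b.repr ⟨_, h1⟩ k • (b k : Ix κ t → ℂ) := (hsum ⟨_, h1⟩).symm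
      rw [h2, pfn_sum]
      refine Submodule.mem_sup_left (Ideal.sum_mem _ fun k _ => ?_)
      rw [pfn_smul]
      exact Ideal.mul_mem_left _ _ (Ideal.subset_span ⟨(x.1, k), rfl⟩))
  have hH : (stb t W ⊓ G).subgroupOf G ≤ ⊤ := le_top
  refine finite_index_of_unit (ρ := rp G) hH (u := u) (by rw [hu1]; exact one_ne_zero)
    (fun s hs hne => ?_)
  rw [Subgroup.mem_subgroupOf]
  refine ⟨mem_stb ?_, s.2⟩
  intro v hv
  have h2 : v = ∑ k, b.repr ⟨v, hv⟩ k • (b k : Ix κ t → ℂ) := (hsum ⟨v, hv⟩).symm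
  rw [h2, Matrix.mulVec_sum]
  refine Submodule.sum_mem _ fun k _ => ?_
  rw [Matrix.mulVec_smul]
  refine Submodule.smul_mem _ _ ((hφ _).1 fun I => ?_)
  have h4 := mem_VG.1 (hu (I, k)) s hs
  have h5 : evM (rp G s) (F (I, k)) = φ I ⬝ᵥ (act ((s : GL κ ℂ) : Matrix κ κ ℂ) t *ᵥ
      (b k : Ix κ t → ℂ)) := ev_pfn (coe_mul_inv _) _ _
  rw [map_mul, h5] at h4
  exact (mul_eq_zero.1 h4).resolve_left hne

/-- Polynomials in the entries of the blocks as polynomials in the entries of a matrix and of its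
inverse. -/
noncomputable def cv : MvPolynomial (Vr κ) ℂ →ₐ[ℂ] MvPolynomial (κ × κ ⊕ κ × κ) ℂ :=
  aeval fun p => match p with
    | (Sum.inl i, Sum.inl j) => X (Sum.inl (i, j))
    | (Sum.inr i, Sum.inr j) => X (Sum.inr (j, i))
    | _ => 0

lemma eval_cv (g : GL κ ℂ) (f : MvPolynomial (Vr κ) ℂ) :
    MvPolynomial.eval (Sum.elim (fun p : κ × κ => (g : Matrix κ κ ℂ) p.1 p.2)
      fun p : κ × κ => ((g⁻¹ : GL κ ℂ) : Matrix κ κ ℂ) p.1 p.2) (cv f) =
    evM (blk (g : Matrix κ κ ℂ) ((g⁻¹ : GL κ ℂ) : Matrix κ κ ℂ)) f := by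
  induction f using MvPolynomial.induction_on with
  | C a =>
    rw [evM_C]
    have h1 : cv (C a : MvPolynomial (Vr κ) ℂ) = C a := aeval_C _ _
    rw [h1, eval_C]
  | add f f' hf hf' => rw [map_add, map_add, hf, hf', map_add]
  | mul_X f p hf =>
    rw [map_mul, map_mul, hf, map_mul, evM_X]
    congr 1
    have h1 : cv (X p : MvPolynomial (Vr κ) ℂ) = (match p with
      | (Sum.inl i, Sum.inl j) => X (Sum.inl (i, j))
      | (Sum.inr i, Sum.inr j) => X (Sum.inr (j, i))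
      | _ => 0) := aeval_X _ _
    rw [h1]
    rcases p with ⟨i | i, j | j⟩
    · simp only [eval_X]
      rfl
    · simp only [map_zero]
      rfl
    · simp only [map_zero]
      rfl
    · simp only [eval_X]
      rfl

/-- The group of a set of classes is algebraic, and so is the stabiliser of a subspace in it. -/
theorem alg_stb (C' : ∀ t : Con, Set (Ix κ t → ℚ)) (t : Con) (W : Submodule ℂ (Ix κ t → ℂ)) :
    IsAlgebraic (stb t W ⊓ group C') := by
  refine ⟨{f | (∃ (s : Con) (v : Ix κ s → ℚ) (i : Ix κ s), v ∈ C' s ∧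
      f = cv (pfn (Pi.single i 1) (fun i => (v i : ℂ)) - C ((v i : ℚ) : ℂ))) ∨
    ∃ φ v : Ix κ t → ℂ, (∀ w ∈ W, φ ⬝ᵥ w = 0) ∧ v ∈ W ∧ f = cv (pfn φ v)}, fun g => ?_⟩
  have hev : ∀ {s : Con} (φ v : Ix κ s → ℂ), evM (blk (g : Matrix κ κ ℂ)
      ((g⁻¹ : GL κ ℂ) : Matrix κ κ ℂ)) (pfn φ v) = φ ⬝ᵥ (act (g : Matrix κ κ ℂ) s *ᵥ v) :=
    fun φ v => ev_pfn (coe_mul_inv g) φ v
  constructor
  · rintro ⟨hW, hC⟩ f hf
    rcases hf with ⟨s, v, i, hv, rfl⟩ | ⟨φ, v, hφ, hv, rfl⟩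
    · rw [eval_cv, map_sub, evM_C, hev, hC s v hv, single_dotProduct, one_mul, sub_self]
    · rw [eval_cv, hev]
      exact hφ _ ((hW v).1 hv)
  · intro h
    refine ⟨mem_stb fun v hv => sep.2 fun φ hφ => ?_, fun s v hv => ?_⟩
    · have h1 := h _ (Or.inr ⟨φ, v, hφ, hv, rfl⟩)
      rwa [eval_cv, hev] at h1
    · funext i
      have h1 := h _ (Or.inl ⟨s, v, i, hv, rfl⟩)
      rw [eval_cv, map_sub, evM_C, hev, single_dotProduct, one_mul] at h1
      exact sub_eq_zero.1 h1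

/-- **In the connected case the subspace is stable under the group.** -/
theorem stab_conn {C' : ∀ t : Con, Set (Ix κ t → ℚ)} (hG : IsConnected (group C')) {t : Con}
    {W : Submodule ℂ (Ix κ t → ℂ)}
    (h : ∀ Y : Matrix κ κ ℂ, (∀ (s : Con), ∀ w ∈ C' s, der Y s *ᵥ (fun i => (w i : ℂ)) = 0) →
      ∀ v ∈ W, der Y t *ᵥ v ∈ W) {g : GL κ ℂ} (hg : g ∈ group C') (v : Ix κ t → ℂ) :
    v ∈ W ↔ act (g : Matrix κ κ ℂ) t *ᵥ v ∈ W := by
  have h1 : ((stb t W ⊓ group C').subgroupOf (group C')).FiniteIndex :=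
    stab_fin fun Y hY v hv => h Y (fun s w hw => hY s _ fun g hg => hg s w hw) v hv
  have h2 := hG _ (alg_stb C' t W) inf_le_right h1
  rw [← h2] at hg
  exact hg.1 v

end Pool.Agent.Q60.RB
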