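import Pool.Agent.Q60.RB.Act

/-!
# The action of exponentials
-/

set_option linter.unusedSectionVars false

namespace Pool.Agent.Q60.RB

open Matrix NormedSpace

variable {A B : Type} [Fintype A] [Fintype B] [DecidableEq A] [DecidableEq B]

/-- `M ↦ M ⊗ 1`. -/
def krL : Matrix A A ℂ →+* Matrix (A × B) (A × B) ℂ where
  toFun M := kr M 1
  map_one' := Matrix.one_kronecker_one
  map_mul' M N := by rw [kr_mul, Matrix.one_mul]
  map_zero' := Matrix.zero_kronecker _
  map_add' M N := kr_add M N 1

/-- `N ↦ 1 ⊗ N`. -/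
def krR : Matrix B B ℂ →+* Matrix (A × B) (A × B) ℂ where
  toFun M := kr 1 M
  map_one' := Matrix.one_kronecker_one
  map_mul' M N := by rw [kr_mul, Matrix.one_mul]
  map_zero' := Matrix.kronecker_zero _
  map_add' M N := kr_add' 1 M N

/-- `(M, N) ↦ M ⊕ N`. -/
def blP : (Matrix A A ℂ × Matrix B B ℂ) →+* Matrix (A ⊕ B) (A ⊕ B) ℂ where
  toFun M := bl M.1 M.2
  map_one' := Matrix.fromBlocks_one
  map_mul' M N := (bl_mul _ _ _ _).symm
  map_zero' := Matrix.fromBlocks_zero
  map_add' M N := bl_add _ _ _ _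

lemma krL_cont : Continuous (krL : Matrix A A ℂ →+* Matrix (A × B) (A × B) ℂ) :=
  continuous_matrix fun i j => by
    change Continuous fun M : Matrix A A ℂ => M i.1 j.1 * (1 : Matrix B B ℂ) i.2 j.2
    fun_prop

lemma krR_cont : Continuous (krR : Matrix B B ℂ →+* Matrix (A × B) (A × B) ℂ) :=
  continuous_matrix fun i j => by
    change Continuous fun M : Matrix B B ℂ => (1 : Matrix A A ℂ) i.1 j.1 * M i.2 j.2
    fun_prop

lemma blP_cont : Continuous (blP : (Matrix A A ℂ × Matrix B B ℂ) →+* Matrix (A ⊕ B) (A ⊕ B) ℂ) :=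
  continuous_matrix fun i j => by
    rcases i with i | i <;> rcases j with j | j
    · change Continuous fun M : Matrix A A ℂ × Matrix B B ℂ => M.1 i j
      exact (continuous_fst.matrix_elem i j)
    · exact continuous_const
    · exact continuous_const
    · change Continuous fun M : Matrix A A ℂ × Matrix B B ℂ => M.2 i j
      exact (continuous_snd.matrix_elem i j)

set_option backward.isDefEq.respectTransparency false in
open scoped Norms.Operator in
lemma exp_kr1 (M : Matrix A A ℂ) : exp (kr M (1 : Matrix B B ℂ)) = kr (exp M) 1 :=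
  (NormedSpace.map_exp (krL : Matrix A A ℂ →+* Matrix (A × B) (A × B) ℂ) krL_cont M).symm

set_option backward.isDefEq.respectTransparency false in
open scoped Norms.Operator in
lemma exp_kr2 (M : Matrix B B ℂ) : exp (kr (1 : Matrix A A ℂ) M) = kr 1 (exp M) :=
  (NormedSpace.map_exp (krR : Matrix B B ℂ →+* Matrix (A × B) (A × B) ℂ) krR_cont M).symm

set_option backward.isDefEq.respectTransparency false in
open scoped Norms.Operator in
lemma exp_bl (M : Matrix A A ℂ) (N : Matrix B B ℂ) : exp (bl M N) = bl (exp M) (exp N) := by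
  have h := (NormedSpace.map_exp (blP : (Matrix A A ℂ × Matrix B B ℂ) →+* Matrix (A ⊕ B) (A ⊕ B) ℂ)
    blP_cont (M, N)).symm
  have h1 : (exp (M, N) : Matrix A A ℂ × Matrix B B ℂ).1 = exp M := Prod.fst_exp (M, N)
  have h2 : (exp (M, N) : Matrix A A ℂ × Matrix B B ℂ).2 = exp N := Prod.snd_exp (M, N)
  change exp (bl M N) = bl (exp (M, N) : Matrix A A ℂ × Matrix B B ℂ).1
    (exp (M, N) : Matrix A A ℂ × Matrix B B ℂ).2 at h
  rw [h, h1, h2]

lemma exp_kd (M : Matrix A A ℂ) (N : Matrix B B ℂ) : exp (kd M N) = kr (exp M) (exp N) := by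
  have hc : Commute (kr M (1 : Matrix B B ℂ)) (kr (1 : Matrix A A ℂ) N) := by
    change kr M 1 * kr 1 N = kr 1 N * kr M 1
    rw [kr_mul, kr_mul, Matrix.one_mul, Matrix.one_mul, Matrix.mul_one, Matrix.mul_one]
  rw [kd, Matrix.exp_add_of_commute _ _ hc, exp_kr1, exp_kr2, kr_mul, Matrix.one_mul,
    Matrix.mul_one]

variable {κ : Type} [Fintype κ] [DecidableEq κ]

/-- The action of an exponential. -/
theorem act_exp (X : Matrix κ κ ℂ) (t : Con) : act (exp X) t = exp (der X t) := by
  induction t with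
  | one => exact (by rw [NormedSpace.exp_zero] : (1 : Matrix Unit Unit ℂ) = exp 0)
  | std => rfl
  | dual t ih =>
    change ((act (exp X) t)⁻¹).transpose = exp (-(der X t).transpose)
    rw [ih, Matrix.exp_neg, Matrix.exp_transpose, Matrix.transpose_nonsing_inv]
  | tensor t s iht ihs => exact (congrArg₂ kr iht ihs).trans (exp_kd _ _).symm
  | sum t s iht ihs => exact (congrArg₂ bl iht ihs).trans (exp_bl _ _).symm

end Pool.Agent.Q60.RB
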