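import Pool.Agent.Q60.RB.Act
import Pool.Agent.Q60.TD.Bc
import Pool.Agent.Q60.GL.Ssl
import Pool.Agent.Helper462.Cb.Chev

/-!
# The endomorphisms of a semisimple representation of a Lie algebra
-/

set_option linter.unusedSectionVars false

namespace Pool.Agent.Q60.RB

open Matrix Module Pool.Agent.Q60.TD Pool.Agent.Q60.GL

variable {κ : Type} [Fintype κ] [DecidableEq κ]

section vec

variable {R : Type} [CommRing R] {A B : Type} [Fintype A] [Fintype B] [DecidableEq A]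
  [DecidableEq B]

/-- The entries of a matrix as a vector. -/
def vc (E : Matrix A B R) : A × B → R := fun p => E p.1 p.2

lemma vc_inj {E F : Matrix A B R} (h : vc E = vc F) : E = F := by
  ext i j
  exact congrFun h (i, j)

lemma kd_vc (M : Matrix A A R) (N : Matrix B B R) (E : Matrix A B R) :
    kd M (-N.transpose) *ᵥ vc E = vc (M * E - E * N) := by
  funext p
  obtain ⟨i, j⟩ := p
  rw [Matrix.mulVec, dotProduct, Fintype.sum_prod_type]
  change _ = (M * E - E * N) i j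
  rw [Matrix.sub_apply, Matrix.mul_apply, Matrix.mul_apply]
  have h1 : ∀ a b, kd M (-N.transpose) (i, j) (a, b) * vc E (a, b) =
      M i a * (1 : Matrix B B R) j b * E a b - (1 : Matrix A A R) i a * (N b j * E a b) := by
    intro a b
    simp only [kd, vc, Matrix.add_apply, Matrix.kroneckerMap_apply, Matrix.neg_apply,
      Matrix.transpose_apply]
    ring
  simp only [h1, Finset.sum_sub_distrib, Matrix.one_apply, mul_ite, mul_one, mul_zero, ite_mul,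
    zero_mul, one_mul, Finset.sum_ite_eq, Finset.mem_univ, if_true]
  congr 1
  rw [Finset.sum_comm]
  simp only [Finset.sum_ite_eq, Finset.mem_univ, if_true]
  exact Finset.sum_congr rfl fun b _ => mul_comm _ _

end vec

section ss

variable {L : Type} [Field L] [Algebra ℚ L] {𝔥 : Submodule ℚ (Matrix κ κ ℚ)}

lemma brL (hbr : ∀ X ∈ 𝔥, ∀ Y ∈ 𝔥, X * Y - Y * X ∈ 𝔥) {X Y : Matrix κ κ L}
    (hX : X ∈ SpM L 𝔥) (hY : Y ∈ SpM L 𝔥) : X * Y - Y * X ∈ SpM L 𝔥 := by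
  refine Submodule.span_induction (p := fun X _ => X * Y - Y * X ∈ SpM L 𝔥) ?_ ?_ ?_ ?_ hX
  · rintro _ ⟨A, hA, rfl⟩
    refine Submodule.span_induction (p := fun Y _ => A.map (algebraMap ℚ L) * Y -
      Y * A.map (algebraMap ℚ L) ∈ SpM L 𝔥) ?_ ?_ ?_ ?_ hY
    · rintro _ ⟨B, hB, rfl⟩
      have h1 : A.map (algebraMap ℚ L) * B.map (algebraMap ℚ L) -
          B.map (algebraMap ℚ L) * A.map (algebraMap ℚ L) =
          (A * B - B * A).map (algebraMap ℚ L) := by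
        rw [Matrix.map_sub _ (fun a b => map_sub _ a b), Matrix.map_mul, Matrix.map_mul]
      rw [h1]
      exact map_mem_SpM (hbr A hA B hB)
    · rw [Matrix.mul_zero, Matrix.zero_mul, sub_zero]
      exact Submodule.zero_mem _
    · intro x y _ _ hx hy
      rw [Matrix.mul_add, Matrix.add_mul, add_sub_add_comm]
      exact Submodule.add_mem _ hx hy
    · intro c x _ hx
      rw [Matrix.mul_smul, Matrix.smul_mul, ← smul_sub]
      exact Submodule.smul_mem _ c hx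
  · rw [Matrix.mul_zero, Matrix.zero_mul, sub_zero]
    exact Submodule.zero_mem _
  · intro x y _ _ hx hy
    rw [Matrix.mul_add, Matrix.add_mul, add_sub_add_comm]
    exact Submodule.add_mem _ hx hy
  · intro c x _ hx
    rw [Matrix.mul_smul, Matrix.smul_mul, ← smul_sub]
    exact Submodule.smul_mem _ c hx

lemma ad_map (X : Matrix κ κ ℚ) : (kd X (-X.transpose)).map (algebraMap ℚ L) =
    kd (X.map (algebraMap ℚ L)) (-(X.map (algebraMap ℚ L)).transpose) := by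
  ext ⟨i, i'⟩ ⟨j, j'⟩
  simp only [kd, Matrix.add_apply, Matrix.kroneckerMap_apply, Matrix.one_apply, Matrix.map_apply,
    Matrix.neg_apply, Matrix.transpose_apply]
  split_ifs <;> simp only [mul_one, mul_zero, one_mul, zero_mul, map_add, map_neg, add_zero,
    zero_add, map_zero]

/-- **The commutators with a Lie algebra which acts semisimply on `V` act semisimply on the
endomorphisms of `V`.** -/
theorem ad_ss (hbr : ∀ X ∈ 𝔥, ∀ Y ∈ 𝔥, X * Y - Y * X ∈ 𝔥)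
    (hss : SSon (MO (𝔥 : Set (Matrix κ κ ℚ))) (⊤ : Submodule ℚ (κ → ℚ))) :
    SSon (MO ((fun X : Matrix κ κ ℚ => kd X (-X.transpose)) '' (𝔥 : Set (Matrix κ κ ℚ))))
      (⊤ : Submodule ℚ (κ × κ → ℚ)) := by
  set L := AlgebraicClosure ℚ with hL
  have : CharZero L := charZero_of_injective_algebraMap (algebraMap ℚ L).injective
  refine ss_descend (L := L) (fun _ _ _ _ => Submodule.mem_top) ?_
  rw [bcS_top]
  intro U _ hU
  have h0 := ss_extend (L := L) (N := (𝔥 : Set (Matrix κ κ ℚ)))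
    (U := (⊤ : Submodule ℚ (κ → ℚ))) (fun _ _ _ _ => Submodule.mem_top) hss
  rw [bcS_top] at h0
  -- operators over the algebraic closure
  have hUs : ∀ X ∈ SpM L 𝔥, ∀ v ∈ U, kd X (-X.transpose) *ᵥ v ∈ U := by
    intro X hX v hv
    refine Submodule.span_induction (p := fun X _ => kd X (-X.transpose) *ᵥ v ∈ U)
      ?_ ?_ ?_ ?_ hX
    · rintro _ ⟨A, hA, rfl⟩
      simp only
      rw [← ad_map]
      exact hU _ ⟨_, ⟨_, ⟨A, hA, rfl⟩, rfl⟩, rfl⟩ v hv
    · have h1 : kd (0 : Matrix κ κ L) (-(0 : Matrix κ κ L).transpose) = 0 := by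
        have h2 := kd_smul (0 : L) (0 : Matrix κ κ L) (-(0 : Matrix κ κ L).transpose)
        rw [zero_smul, zero_smul, zero_smul] at h2
        rw [Matrix.transpose_zero, neg_zero]
        exact h2
      rw [h1, Matrix.zero_mulVec]
      exact Submodule.zero_mem _
    · intro x y _ _ hx hy
      rw [Matrix.transpose_add, neg_add, kd_add, Matrix.add_mulVec]
      exact Submodule.add_mem _ hx hy
    · intro c x _ hx
      rw [Matrix.transpose_smul, ← smul_neg, kd_smul, Matrix.smul_mulVec]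
      exact Submodule.smul_mem _ c hx
  let S : Submodule L (Module.End L (κ → L)) :=
    (SpM L 𝔥).map (Matrix.toLin' : Matrix κ κ L ≃ₗ[L] _).toLinearMap
  have hS : ∀ X, X ∈ SpM L 𝔥 → Matrix.toLin' X ∈ S := fun X hX => ⟨X, hX, rfl⟩
  have hSbr : ∀ x ∈ S, ∀ y ∈ S, x * y - y * x ∈ S := by
    rintro _ ⟨X, hX, rfl⟩ _ ⟨Y, hY, rfl⟩
    refine ⟨X * Y - Y * X, brL hbr hX hY, ?_⟩
    change Matrix.toLin' (X * Y - Y * X) = Matrix.toLin' X * Matrix.toLin' Y -
      Matrix.toLin' Y * Matrix.toLin' X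
    rw [map_sub, Matrix.toLin'_mul, Matrix.toLin'_mul]
    rfl
  have hV : ∀ W : Submodule L (κ → L), (∀ x ∈ S, ∀ w ∈ W, x w ∈ W) →
      ∃ W' : Submodule L (κ → L), (∀ x ∈ S, ∀ w ∈ W', x w ∈ W') ∧ IsCompl W W' := by
    intro W hW
    obtain ⟨C, _, hC1, hC2, hC3⟩ := h0 W le_top (by
      rintro _ ⟨_, ⟨A, hA, rfl⟩, rfl⟩ v hv
      exact hW _ (hS _ (map_mem_SpM hA)) v hv)
    refine ⟨C, ?_, ⟨disjoint_iff.2 hC2, codisjoint_iff.2 hC3⟩⟩
    rintro _ ⟨X, hX, rfl⟩ v hv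
    change X *ᵥ v ∈ C
    refine Submodule.span_induction (p := fun X _ => X *ᵥ v ∈ C) ?_ ?_ ?_ ?_ hX
    · rintro _ ⟨A, hA, rfl⟩
      exact hC1 _ ⟨_, ⟨A, hA, rfl⟩, rfl⟩ v hv
    · rw [Matrix.zero_mulVec]
      exact Submodule.zero_mem _
    · intro x y _ _ hx hy
      rw [Matrix.add_mulVec]
      exact Submodule.add_mem _ hx hy
    · intro c x _ hx
      rw [Matrix.smul_mulVec]
      exact Submodule.smul_mem _ c hx
  let vcL : Matrix κ κ L →ₗ[L] (κ × κ → L) :=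
    { toFun := vc
      map_add' := fun _ _ => rfl
      map_smul' := fun _ _ => rfl }
  let Ψ : Module.End L (κ → L) →ₗ[L] (κ × κ → L) :=
    vcL ∘ₗ (LinearMap.toMatrix' : _ ≃ₗ[L] Matrix κ κ L).toLinearMap
  have hΨ : ∀ f, Ψ f = vc (LinearMap.toMatrix' f) := fun _ => rfl
  have hΨi : Function.Injective Ψ := by
    intro f g hfg
    rw [hΨ, hΨ] at hfg
    exact LinearMap.toMatrix'.injective (vc_inj hfg)
  have hΨs : Function.Surjective Ψ := by
    intro t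
    exact ⟨Matrix.toLin' (Matrix.of fun i j => t (i, j)), by
      rw [hΨ, LinearMap.toMatrix'_toLin']
      rfl⟩
  have hΨc : ∀ (X : Matrix κ κ L) (f : Module.End L (κ → L)),
      Ψ (Matrix.toLin' X * f - f * Matrix.toLin' X) = kd X (-X.transpose) *ᵥ Ψ f := by
    intro X f
    rw [hΨ, hΨ, kd_vc, map_sub]
    have h1 : LinearMap.toMatrix' (Matrix.toLin' X * f) = X * LinearMap.toMatrix' f := by
      rw [Module.End.mul_eq_comp, LinearMap.toMatrix'_comp, LinearMap.toMatrix'_toLin']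
    have h2 : LinearMap.toMatrix' (f * Matrix.toLin' X) = LinearMap.toMatrix' f * X := by
      rw [Module.End.mul_eq_comp, LinearMap.toMatrix'_comp, LinearMap.toMatrix'_toLin']
    rw [h1, h2]
  obtain ⟨W', h1, h2⟩ := Cb.lie_ad_all L (κ → L) S hSbr hV (U.comap Ψ) (by
    rintro _ ⟨X, hX, rfl⟩ f hf
    change Ψ (Matrix.toLin' X * f - f * Matrix.toLin' X) ∈ U
    rw [hΨc X]
    exact hUs X hX _ hf)
  refine ⟨W'.map Ψ, le_top, ?_, ?_, ?_⟩
  · rintro _ ⟨_, ⟨_, ⟨A, hA, rfl⟩, rfl⟩, rfl⟩ _ ⟨f, hf, rfl⟩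
    refine ⟨_, h1 _ (hS _ (map_mem_SpM hA)) f hf, ?_⟩
    rw [hΨc, ← ad_map]
    rfl
  · rw [eq_bot_iff]
    rintro _ ⟨hv, f, hf, rfl⟩
    have h3 : f ∈ U.comap Ψ ⊓ W' := ⟨hv, hf⟩
    rw [h2.inf_eq_bot] at h3
    rw [(Submodule.mem_bot L).1 h3, map_zero]
    exact Submodule.zero_mem _
  · rw [eq_top_iff]
    intro v _
    obtain ⟨f, rfl⟩ := hΨs v
    have h3 : f ∈ U.comap Ψ ⊔ W' := by
      rw [h2.sup_eq_top]
      trivial
    obtain ⟨a, ha, b, hb, rfl⟩ := Submodule.mem_sup.1 h3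
    rw [map_add]
    exact Submodule.add_mem_sup ha ⟨b, hb, rfl⟩

end ss

section core

/-- **The core of the argument.** -/
theorem core {𝔥 𝔤 : Submodule ℚ (Matrix κ κ ℚ)} (hle : 𝔥 ≤ 𝔤)
    (hbr : ∀ X ∈ 𝔥, ∀ Y ∈ 𝔥, X * Y - Y * X ∈ 𝔥)
    (hproj : ∀ U : Submodule ℚ (Matrix κ κ ℚ), (∀ X ∈ 𝔥, ∀ Y ∈ U, X * Y - Y * X ∈ U) →
      ∃ e : Matrix κ κ ℚ →ₗ[ℚ] Matrix κ κ ℚ, (∀ Y, e Y ∈ U) ∧ (∀ Y ∈ U, e Y = Y) ∧
        ∀ X ∈ 𝔤, ∀ Y, e (X * Y - Y * X) = X * e Y - e Y * X)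
    (hZ : ∀ Z, (∀ X ∈ 𝔥, X * Z = Z * X) → ∀ X ∈ 𝔤, X * Z = Z * X)
    (hcen : ∀ X ∈ 𝔤, (∀ Y ∈ 𝔤, X * Y = Y * X) → ∃ c : ℚ, X = c • 1)
    (htr : (1 : Matrix κ κ ℚ) ∈ 𝔤 → ∃ X ∈ 𝔥, X.trace ≠ 0) : 𝔤 ≤ 𝔥 := by
  obtain ⟨e, he1, he2, he3⟩ := hproj 𝔥 hbr
  -- the complement consists of scalars
  have hc : ∀ X ∈ 𝔤, ∃ c : ℚ, X = e X + c • 1 := by
    intro X hX
    have hC : X - e X ∈ 𝔤 := 𝔤.sub_mem hX (hle (he1 X))
    have heC : e (X - e X) = 0 := by rw [map_sub, he2 _ (he1 X), sub_self]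
    have hcomm : ∀ Y ∈ 𝔥, Y * (X - e X) = (X - e X) * Y := by
      intro Y hY
      have h1 := he3 Y (hle hY) (X - e X)
      rw [heC, Matrix.mul_zero, Matrix.zero_mul, sub_zero] at h1
      have h2 := he3 (X - e X) hC Y
      rw [he2 Y hY] at h2
      have h3 : (X - e X) * Y - Y * (X - e X) = -(Y * (X - e X) - (X - e X) * Y) := by
        rw [neg_sub]
      rw [h3, map_neg, h1, neg_zero] at h2
      have h4 : Y * (X - e X) - (X - e X) * Y = 0 := neg_eq_zero.1 h2.symm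
      exact sub_eq_zero.1 h4
    have h5 := hZ _ hcomm
    obtain ⟨c, hc⟩ := hcen _ hC fun Y hY => (h5 Y hY).symm
    exact ⟨c, by rw [← hc]; abel⟩
  by_contra hcon
  obtain ⟨X, hX, hXn⟩ := Set.not_subset.1 hcon
  obtain ⟨c, hcX⟩ := hc X hX
  have hc0 : c ≠ 0 := by
    rintro rfl
    rw [zero_smul, add_zero] at hcX
    apply hXn
    rw [hcX]
    exact he1 X
  have h1g : (1 : Matrix κ κ ℚ) ∈ 𝔤 := by
    have h1 : (1 : Matrix κ κ ℚ) = c⁻¹ • (X - e X) := by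
      have h2 : X - e X = c • 1 := by
        rw [sub_eq_iff_eq_add']
        exact hcX
      rw [h2, smul_smul, inv_mul_cancel₀ hc0, one_smul]
    rw [h1]
    exact 𝔤.smul_mem _ (𝔤.sub_mem hX (hle (he1 X)))
  have h1h : (1 : Matrix κ κ ℚ) ∉ 𝔥 := by
    intro h1
    apply hXn
    rw [hcX]
    exact 𝔥.add_mem (he1 X) (𝔥.smul_mem _ h1)
  -- the derived algebra
  let D : Submodule ℚ (Matrix κ κ ℚ) :=
    Submodule.span ℚ {Z | ∃ X ∈ 𝔥, ∃ Y ∈ 𝔥, Z = X * Y - Y * X}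
  have hD : ∀ X ∈ 𝔥, ∀ Y ∈ 𝔥, X * Y - Y * X ∈ D := fun X hX Y hY =>
    Submodule.subset_span ⟨X, hX, Y, hY, rfl⟩
  have hDh : D ≤ 𝔥 := by
    rw [Submodule.span_le]
    rintro _ ⟨X, hX, Y, hY, rfl⟩
    exact hbr X hX Y hY
  obtain ⟨d, hd1, hd2, hd3⟩ := hproj D fun X hX Y hY => hD X hX Y (hDh hY)
  have hhD : 𝔥 ≤ D := by
    intro X hX
    have hX0 : X - d X ∈ 𝔥 := 𝔥.sub_mem hX (hDh (hd1 X))
    have hcom : ∀ Y ∈ 𝔤, (X - d X) * Y = Y * (X - d X) := by
      intro Y hY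
      obtain ⟨r, hr⟩ := hc Y hY
      have h1 : Y * X - X * Y ∈ D := by
        have h2 : Y * X - X * Y = e Y * X - X * e Y := by
          conv_lhs => rw [hr]
          rw [Matrix.add_mul, Matrix.mul_add, Matrix.smul_mul, Matrix.mul_smul, Matrix.one_mul,
            Matrix.mul_one]
          abel
        rw [h2]
        exact hD _ (he1 Y) _ hX
      have h3 := hd3 Y hY X
      rw [hd2 _ h1] at h3
      have h4 : Y * (X - d X) - (X - d X) * Y = (Y * X - X * Y) - (Y * d X - d X * Y) := by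
        rw [Matrix.mul_sub, Matrix.sub_mul]
        abel
      rw [← h3, sub_self] at h4
      exact (sub_eq_zero.1 h4).symm
    obtain ⟨r, hr⟩ := hcen _ (hle hX0) hcom
    have hr0 : r = 0 := by
      by_contra hne
      apply h1h
      have h1 : (1 : Matrix κ κ ℚ) = r⁻¹ • (X - d X) := by
        rw [hr, smul_smul, inv_mul_cancel₀ hne, one_smul]
      rw [h1]
      exact 𝔥.smul_mem _ hX0
    rw [hr0, zero_smul] at hr
    rw [sub_eq_zero.1 hr]
    exact hd1 X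
  obtain ⟨Z, hZ1, hZ2⟩ := htr h1g
  apply hZ2
  have h5 : D ≤ LinearMap.ker (Matrix.traceLinearMap κ ℚ ℚ) := by
    rw [Submodule.span_le]
    rintro _ ⟨X, _, Y, _, rfl⟩
    change Matrix.trace (X * Y - Y * X) = 0
    rw [Matrix.trace_sub, Matrix.trace_mul_comm, sub_self]
  exact h5 (hhD hZ1)

end core

end Pool.Agent.Q60.RB
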