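import Pool.Agent.Q60.RB.Eng
import Pool.Agent.Q60.RB.Dic
import Pool.Agent.Q60.RB.Sem
import Pool.Agent.Q60.RB.Ex
import Pool.Agent.Q60.GL.Expo
import Pool.Agent.H23R2.Der

/-!
# The classes of degree four decide
-/

set_option linter.unusedSectionVars false

namespace Pool.Agent.Q60.RB

open Matrix Module Pool.Agent.Q50.LR Pool.Agent.Q60.GL Pool.Agent.Q60.TD

variable {κ : Type} [Fintype κ] [DecidableEq κ] {K : Type} [Field K] [Algebra K ℂ]
  {P : GL κ ℂ} {C : ∀ t : Con, Set (Ix κ t → ℚ)}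

/-- The rational matrices which kill all classes in `C`. -/
def lieG (C : ∀ t : Con, Set (Ix κ t → ℚ)) : Submodule ℚ (Matrix κ κ ℚ) where
  carrier := {X | ∀ t : Con, ∀ v ∈ C t, der X t *ᵥ v = 0}
  add_mem' {X Y} hX hY t v hv := by
    rw [der_add, Matrix.add_mulVec, hX t v hv, hY t v hv, add_zero]
  zero_mem' t v _ := by rw [der_zero, Matrix.zero_mulVec]
  smul_mem' c X hX t v hv := by rw [der_smul, Matrix.smul_mulVec, hX t v hv, smul_zero]

lemma lieH_le (hC : ∀ t, ∀ v ∈ C t, ∃ v' : Ix κ t → K, MapsTo K P t v' v) :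
    lieH K P ≤ lieG C := by
  intro X hX t v hv
  obtain ⟨v', hv'⟩ := hC t v hv
  exact kill_of_class hv' hX

lemma rat_mulVec {t : Con} (X : Matrix κ κ ℚ) (v : Ix κ t → ℚ) :
    der (X.map (algebraMap ℚ ℂ)) t *ᵥ (fun i => (v i : ℂ)) =
      fun i => (((der X t *ᵥ v) i : ℚ) : ℂ) := by
  rw [der_map]
  funext i
  have h1 : (((der X t *ᵥ v) i : ℚ) : ℂ) = algebraMap ℚ ℂ ((der X t *ᵥ v) i) := rfl
  rw [h1, Matrix.mulVec, Matrix.mulVec, dotProduct, dotProduct, map_sum]
  refine Finset.sum_congr rfl fun j _ => ?_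
  rw [map_mul, Matrix.map_apply]
  rfl

/-- Complex matrices which kill all classes are combinations of rational ones. -/
lemma lieG_span {Y : Matrix κ κ ℂ}
    (hY : ∀ (s : Con), ∀ w ∈ C s, der Y s *ᵥ (fun i => (w i : ℂ)) = 0) :
    Y ∈ SpM ℂ (lieG C) := by
  refine mem_SpM fun l => ?_
  intro t v hv
  have h3 : der (Matrix.of fun i j => l (Y i j)) t = (der Y t).map l :=
    der_form l.toAddMonoidHom Y t
  rw [h3]
  funext i
  have h1 := congrArg l (congrFun (hY t v hv) i)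
  rw [Pi.zero_apply, map_zero, Matrix.mulVec, dotProduct, map_sum] at h1
  rw [Pi.zero_apply, ← h1, Matrix.mulVec, dotProduct]
  refine Finset.sum_congr rfl fun j _ => ?_
  have h2 : der Y t i j * ((v j : ℚ) : ℂ) = v j • der Y t i j := by
    rw [Algebra.smul_def, mul_comm]
    rfl
  rw [h2, map_smul, smul_eq_mul, mul_comm]
  rfl

/-- The exponential as an invertible matrix. -/
noncomputable def eu (X : Matrix κ κ ℂ) (s : ℂ) : GL κ ℂ := (Matrix.isUnit_exp (s • X)).unit

lemma eu_coe (X : Matrix κ κ ℂ) (s : ℂ) : ((eu X s : GL κ ℂ) : Matrix κ κ ℂ) = ex X s := rfl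

/-- Exponentials fix the killed vectors. -/
lemma eu_mem {X : Matrix κ κ ℂ}
    (hX : ∀ (s : Con), ∀ w ∈ C s, der X s *ᵥ (fun i => (w i : ℂ)) = 0) (s : ℂ) :
    eu X s ∈ group C := by
  intro t v hv
  rw [eu_coe, ex, act_exp, der_smul]
  have h1 : ∀ (A : Matrix (Ix κ t) (Ix κ t) ℂ) (x : Ix κ t → ℂ), A *ᵥ x = 0 →
      NormedSpace.exp A *ᵥ x = x := by
    intro A x hx
    funext i
    -- the function `z ↦ exp (z A) x` is constant
    have hd : ∀ z : ℂ, HasDerivAt (fun z => (ex A z *ᵥ x) i) 0 z := by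
      intro z
      have h2 : HasDerivAt (fun z => ∑ j, ex A z i j * x j) (∑ j, (ex A z * A) i j * x j) z :=
        HasDerivAt.fun_sum fun j _ => (hasDeriv_ex A z i j).mul_const _
      have h3 : ∑ j, (ex A z * A) i j * x j = 0 := by
        change ((ex A z * A) *ᵥ x) i = 0
        rw [← Matrix.mulVec_mulVec, hx, Matrix.mulVec_zero]
        rfl
      rw [h3] at h2
      exact h2
    have h4 := is_const_of_deriv_eq_zero (fun z => (hd z).differentiableAt)
      (fun z => (hd z).deriv) 1 0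
    rw [ex_zero, Matrix.one_mulVec, ex, one_smul] at h4
    exact h4
  exact h1 _ _ (by rw [Matrix.smul_mulVec, hX t v hv, smul_zero])

end Pool.Agent.Q60.RB
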