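import Pool.Agent.Q60.RB.Fin

/-!
# The hypotheses of the core
-/

set_option linter.unusedSectionVars false

namespace Pool.Agent.Q60.RB

open Matrix Module Pool.Agent.Q50.LR Pool.Agent.Q60.GL Pool.Agent.Q60.TD

variable {κ : Type} [Fintype κ] [DecidableEq κ] {K : Type} [Field K] [Algebra K ℂ]
  {P : GL κ ℂ} {C : ∀ t : Con, Set (Ix κ t → ℚ)}

/-- Semisimplicity in terms of the Lie algebra. -/
lemma ss_of [IsAlgClosed K] (h : IsSemisimple K P) :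
    SSon (MO (lieH K P : Set (Matrix κ κ ℚ))) (⊤ : Submodule ℚ (κ → ℚ)) := by
  intro W _ hW
  obtain ⟨N', hN'⟩ := sub_of_stab (K := K) (P := P) (t := Con.std) (N := W)
    fun X hX v hv => hW _ ⟨X, hX, rfl⟩ v hv
  obtain ⟨N₂', N₂, h1, h2⟩ := h N' W hN'
  refine ⟨N₂, le_top, ?_, h2.inf_eq_bot, h2.sup_eq_top⟩
  rintro _ ⟨X, hX, rfl⟩ v hv
  exact hX Con.std N₂' N₂ h1 v hv

/-- Matrices as vectors. -/
def vcE : Matrix κ κ ℚ ≃ₗ[ℚ] (κ × κ → ℚ) where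
  toFun := vc
  invFun v := Matrix.of fun i j => v (i, j)
  left_inv _ := rfl
  right_inv _ := rfl
  map_add' _ _ := rfl
  map_smul' _ _ := rfl

lemma vcE_apply (Y : Matrix κ κ ℚ) : vcE Y = vc Y := rfl

lemma der_four (X : Matrix κ κ ℚ) : der X four =
    kd (kd X (-X.transpose)) (-(kd X (-X.transpose)).transpose) := rfl

/-- Endomorphisms of the endomorphisms of `V` which commute with the Lie algebra of the de Rham-Betti
group commute with the Lie algebra of the classes. -/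
lemma comm_four [IsAlgClosed K] (hF : FullInDegreeFour K P C) {E : Matrix (κ × κ) (κ × κ) ℚ}
    (hE : ∀ X ∈ lieH K P, kd X (-X.transpose) * E = E * kd X (-X.transpose))
    {X : Matrix κ κ ℚ} (hX : X ∈ lieG C) :
    kd X (-X.transpose) * E = E * kd X (-X.transpose) := by
  have h1 : ∀ Y : Matrix κ κ ℚ, der Y four *ᵥ vc E =
      vc (kd Y (-Y.transpose) * E - E * kd Y (-Y.transpose)) := fun Y => kd_vc _ _ _
  obtain ⟨v', hv'⟩ := class_of_kill (K := K) (P := P) (t := four) (v := vc E) fun Y hY => by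
    refine (h1 Y).trans ?_
    rw [hE Y hY, sub_self]
    rfl
  have h2 := (h1 X).symm.trans (hX four _ (hF v' _ hv'))
  exact sub_eq_zero.1 (vc_inj h2)

/-- The projections. -/
lemma proj_four [IsAlgClosed K] (h : IsSemisimple K P) (hF : FullInDegreeFour K P C)
    (U : Submodule ℚ (Matrix κ κ ℚ)) (hU : ∀ X ∈ lieH K P, ∀ Y ∈ U, X * Y - Y * X ∈ U) :
    ∃ e : Matrix κ κ ℚ →ₗ[ℚ] Matrix κ κ ℚ, (∀ Y, e Y ∈ U) ∧ (∀ Y ∈ U, e Y = Y) ∧
      ∀ X ∈ lieG C, ∀ Y, e (X * Y - Y * X) = X * e Y - e Y * X := by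
  have hW : Stab (MO ((fun X : Matrix κ κ ℚ => kd X (-X.transpose)) ''
      (lieH K P : Set (Matrix κ κ ℚ)))) (U.map (vcE : Matrix κ κ ℚ ≃ₗ[ℚ] _).toLinearMap) := by
    rintro _ ⟨_, ⟨X, hX, rfl⟩, rfl⟩ _ ⟨Y, hY, rfl⟩
    refine ⟨X * Y - Y * X, hU X hX Y hY, ?_⟩
    exact (kd_vc X X Y).symm
  obtain ⟨p, hp1, hp2, hp3⟩ := (ss_iff (fun _ _ _ _ => Submodule.mem_top)).1
    (ad_ss (𝔥 := lieH K P) (fun X hX Y hY => br_lieH hX hY) (ss_of h)) _ le_top hW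
  -- the projection commutes with the Lie algebra of the classes
  have hcom : ∀ X ∈ lieG C, ∀ u : κ × κ → ℚ,
      p (kd X (-X.transpose) *ᵥ u) = kd X (-X.transpose) *ᵥ p u := by
    intro X hX u
    have h1 : ∀ Y ∈ lieH K P, kd Y (-Y.transpose) * LinearMap.toMatrix' p =
        LinearMap.toMatrix' p * kd Y (-Y.transpose) := by
      intro Y hY
      have h2 : p ∘ₗ Matrix.toLin' (kd Y (-Y.transpose)) =
          Matrix.toLin' (kd Y (-Y.transpose)) ∘ₗ p := by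
        refine LinearMap.ext fun u => ?_
        exact hp3 _ ⟨_, ⟨Y, hY, rfl⟩, rfl⟩ u Submodule.mem_top
      have h3 := congrArg LinearMap.toMatrix' h2
      rw [LinearMap.toMatrix'_comp, LinearMap.toMatrix'_comp, LinearMap.toMatrix'_toLin'] at h3
      exact h3.symm
    have h2 := comm_four hF h1 hX
    have h3 : ∀ u, LinearMap.toMatrix' p *ᵥ u = p u := fun u => by
      rw [← Matrix.toLin'_apply, Matrix.toLin'_toMatrix']
    rw [← h3, ← h3, Matrix.mulVec_mulVec, Matrix.mulVec_mulVec, h2]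
  have hpU : ∀ v, p v ∈ U.map (vcE : Matrix κ κ ℚ ≃ₗ[ℚ] _).toLinearMap := fun v =>
    hp2 v Submodule.mem_top
  refine ⟨(vcE : Matrix κ κ ℚ ≃ₗ[ℚ] _).symm.toLinearMap ∘ₗ p ∘ₗ
    (vcE : Matrix κ κ ℚ ≃ₗ[ℚ] _).toLinearMap, fun Y => ?_, fun Y hY => ?_, fun X hX Y => ?_⟩
  · obtain ⟨Y', hY', h1⟩ := hpU (vcE Y)
    change (vcE : Matrix κ κ ℚ ≃ₗ[ℚ] _).symm (p (vcE Y)) ∈ U
    rw [← h1]
    change (vcE : Matrix κ κ ℚ ≃ₗ[ℚ] _).symm (vcE Y') ∈ U
    rw [LinearEquiv.symm_apply_apply]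
    exact hY'
  · change (vcE : Matrix κ κ ℚ ≃ₗ[ℚ] _).symm (p (vcE Y)) = Y
    have h1 : p (vcE Y) = vcE Y := hp1 _ ⟨Y, hY, rfl⟩
    rw [h1, LinearEquiv.symm_apply_apply]
  · obtain ⟨Y', hY', h1⟩ := hpU (vcE Y)
    have h1' : vcE Y' = p (vcE Y) := h1
    change (vcE : Matrix κ κ ℚ ≃ₗ[ℚ] _).symm (p (vcE (X * Y - Y * X))) =
      X * (vcE : Matrix κ κ ℚ ≃ₗ[ℚ] _).symm (p (vcE Y)) -
        (vcE : Matrix κ κ ℚ ≃ₗ[ℚ] _).symm (p (vcE Y)) * X
    have h2 : vcE (X * Y - Y * X) = kd X (-X.transpose) *ᵥ vcE Y := (kd_vc X X Y).symm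
    have h3 : kd X (-X.transpose) *ᵥ vcE Y' = vcE (X * Y' - Y' * X) := kd_vc X X Y'
    rw [h2, hcom X hX, ← h1', h3, LinearEquiv.symm_apply_apply, LinearEquiv.symm_apply_apply]

/-- The commutants are equal. -/
lemma comm_one [IsAlgClosed K] (hF : FullInDegreeFour K P C) {Z : Matrix κ κ ℚ}
    (hZ : ∀ X ∈ lieH K P, X * Z = Z * X) {X : Matrix κ κ ℚ} (hX : X ∈ lieG C) :
    X * Z = Z * X := by
  cases isEmpty_or_nonempty κ with
  | inl h => exact Subsingleton.elim _ _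
  | inr h =>
    have h1 : ∀ Y : Matrix κ κ ℚ, kd Y (-Y.transpose) * kr Z 1 - kr Z 1 * kd Y (-Y.transpose) =
        kr (Y * Z - Z * Y) (1 : Matrix κ κ ℚ) := by
      intro Y
      rw [kd, Matrix.add_mul, Matrix.mul_add, kr_sub]
      simp only [kr_mul, Matrix.one_mul, Matrix.mul_one]
      abel
    have h2 := comm_four hF (E := kr Z 1) (fun Y hY => by
      rw [← sub_eq_zero, h1 Y, hZ Y hY, sub_self]
      exact Matrix.zero_kronecker _) hX
    rw [← sub_eq_zero, h1 X] at h2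
    obtain ⟨k⟩ := h
    ext i j
    have h3 := congrFun (congrFun h2 (i, k)) (j, k)
    change (X * Z - Z * X) i j * (1 : Matrix κ κ ℚ) k k = 0 at h3
    rw [Matrix.one_apply_eq, mul_one, Matrix.sub_apply] at h3
    exact sub_eq_zero.1 h3

end Pool.Agent.Q60.RB
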