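import Pool.Agent.Q60.RB.Fin2

/-!
# Lines, the centre and the determinant
-/

set_option linter.unusedSectionVars false

namespace Pool.Agent.Q60.RB

open Matrix Module Pool.Agent.Q50.LR Pool.Agent.Q60.GL Pool.Agent.Q60.TD

variable {κ : Type} [Fintype κ] [DecidableEq κ] {K : Type} [Field K] [Algebra K ℂ]
  {P : GL κ ℂ} {C : ∀ t : Con, Set (Ix κ t → ℚ)}

/-- The vector `(1, v)`. -/
def lv {F : Type} [Field F] {t : Con} (v : Ix κ t → F) : Ix κ (.sum .one t) → F :=
  (Sum.elim (fun _ => 1) v : Unit ⊕ Ix κ t → F)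

/-- `g (1, v) = (1, g v)`. -/
lemma act_lv {g : Matrix κ κ ℂ} {t : Con} (x : Ix κ t → ℂ) :
    act g (.sum .one t) *ᵥ lv x = lv (act g t *ᵥ x) := by
  change bl (1 : Matrix Unit Unit ℂ) (act g t) *ᵥ (Sum.elim (fun _ => 1) x : Unit ⊕ Ix κ t → ℂ) =
    (Sum.elim (fun _ => 1) (act g t *ᵥ x) : Unit ⊕ Ix κ t → ℂ)
  funext i
  rcases i with i | i
  · rw [Matrix.mulVec, dotProduct, Fintype.sum_sum_type]
    simp [bl]
  · rw [Matrix.mulVec, dotProduct, Fintype.sum_sum_type]
    simp only [bl, Matrix.fromBlocks_apply₂₁, Matrix.zero_apply, zero_mul,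
      Finset.sum_const_zero, zero_add, Matrix.fromBlocks_apply₂₂, Sum.elim_inr]
    rfl

lemma der_lv {X : Matrix κ κ ℂ} {t : Con} {x : Ix κ t → ℂ} (h : der X t *ᵥ x = 0) :
    der X (.sum .one t) *ᵥ lv x = 0 := by
  change bl (0 : Matrix Unit Unit ℂ) (der X t) *ᵥ (Sum.elim (fun _ => 1) x : Unit ⊕ Ix κ t → ℂ) =
    (0 : Unit ⊕ Ix κ t → ℂ)
  funext i
  rcases i with i | i
  · rw [Matrix.mulVec, dotProduct, Fintype.sum_sum_type]
    simp [bl]
  · rw [Matrix.mulVec, dotProduct, Fintype.sum_sum_type]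
    simp only [bl, Matrix.fromBlocks_apply₂₁, Matrix.zero_apply, zero_mul,
      Finset.sum_const_zero, zero_add, Matrix.fromBlocks_apply₂₂, Sum.elim_inr]
    exact congrFun h i

lemma lv_inj {t : Con} {x y : Ix κ t → ℂ} {c : ℂ} (h : lv x = c • lv y) : x = y := by
  have h1 : (1 : ℂ) = c * 1 := congrFun h (Sum.inl ())
  funext i
  have h2 : x i = c * y i := congrFun h (Sum.inr i)
  rw [h2, ← mul_one c, ← h1, one_mul]

lemma cspan_line {F : Type} [Field F] [Algebra F ℂ] {B : Type} (u : B → F) :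
    cspan (Submodule.span F {u}) = Submodule.span ℂ {fun i => algebraMap F ℂ (u i)} := by
  refine le_antisymm ?_ ?_
  · rw [cspan, Submodule.span_le]
    rintro _ ⟨a, ha, rfl⟩
    obtain ⟨c, rfl⟩ := Submodule.mem_span_singleton.1 ha
    have h1 : (fun i => algebraMap F ℂ ((c • u) i)) = algebraMap F ℂ c •
        fun i => algebraMap F ℂ (u i) := funext fun i => map_mul _ _ _
    rw [h1]
    exact Submodule.smul_mem _ _ (Submodule.mem_span_singleton_self _)
  · rw [Submodule.span_le, Set.singleton_subset_iff]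
    exact cspan_mem (Submodule.mem_span_singleton_self u)

lemma lv_map {F : Type} [Field F] [Algebra F ℂ] {t : Con} (v : Ix κ t → F) :
    (fun i => algebraMap F ℂ (lv v i)) = lv fun i => algebraMap F ℂ (v i) := by
  funext i
  rcases i with i | i
  · exact map_one _
  · rfl

/-- Classes are subobjects of `1 ⊕ t(M)`. -/
lemma line_iff {f : GL κ ℂ} {t : Con} {v' : Ix κ t → K} {v : Ix κ t → ℚ} :
    Carries K f (.sum .one t) (Submodule.span K {lv v'}) (Submodule.span ℚ {lv v}) ↔
      MapsTo K f t v' v := by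
  have h0 : Carries K f (.sum .one t) (Submodule.span K {lv v'}) (Submodule.span ℚ {lv v}) ↔
      Submodule.span ℂ {lv (act (f : Matrix κ κ ℂ) t *ᵥ fun i => algebraMap K ℂ (v' i))} =
        Submodule.span ℂ {lv fun i => (v i : ℂ)} := by
    rw [Carries, cspan_line, cspan_line, Submodule.map_span, Set.image_singleton, lv_map, lv_map,
      Matrix.mulVecLin_apply, act_lv]
    rfl
  rw [h0, MapsTo]
  constructor
  · intro h
    have h1 : lv (act (f : Matrix κ κ ℂ) t *ᵥ fun i => algebraMap K ℂ (v' i)) ∈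
        Submodule.span ℂ {lv fun i => (v i : ℂ)} := by
      rw [← h]
      exact Submodule.mem_span_singleton_self _
    obtain ⟨c, hc⟩ := Submodule.mem_span_singleton.1 h1
    exact lv_inj hc.symm
  · intro h
    rw [h]

/-- Complex vectors which are killed by all matrices killing the classes are fixed by the group of
the classes, in the connected case. -/
theorem fix_of_kill (hG : IsConnected (group C)) {t : Con} {x : Ix κ t → ℂ}
    (h : ∀ Y : Matrix κ κ ℂ, (∀ (s : Con), ∀ w ∈ C s, der Y s *ᵥ (fun i => (w i : ℂ)) = 0) →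
      der Y t *ᵥ x = 0) {g : GL κ ℂ} (hg : g ∈ group C) :
    act (g : Matrix κ κ ℂ) t *ᵥ x = x := by
  have h1 := (stab_conn hG (t := .sum .one t) (W := Submodule.span ℂ {lv x}) (by
    intro Y hY v hv
    obtain ⟨c, rfl⟩ := Submodule.mem_span_singleton.1 hv
    rw [Matrix.mulVec_smul, der_lv (h Y hY), smul_zero]
    exact Submodule.zero_mem _) hg (lv x)).1 (Submodule.mem_span_singleton_self _)
  rw [act_lv] at h1
  obtain ⟨c, hc⟩ := Submodule.mem_span_singleton.1 h1
  exact lv_inj hc.symm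

lemma kr_vc (M N E : Matrix κ κ ℂ) : kr M N *ᵥ vc E = vc (M * E * N.transpose) := by
  funext p
  obtain ⟨i, j⟩ := p
  rw [Matrix.mulVec, dotProduct, Fintype.sum_prod_type]
  change _ = (M * E * N.transpose) i j
  rw [Matrix.mul_apply, Finset.sum_comm]
  refine Finset.sum_congr rfl fun b _ => ?_
  rw [Matrix.mul_apply, Finset.sum_mul]
  refine Finset.sum_congr rfl fun a _ => ?_
  simp only [Matrix.kroneckerMap_apply, vc, Matrix.transpose_apply]
  ring

/-- The rational matrix kills the classes over the complex numbers. -/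
lemma kills_of_lieG {X : Matrix κ κ ℚ} (hX : X ∈ lieG C) (s : Con) :
    ∀ w ∈ C s, der (X.map (algebraMap ℚ ℂ)) s *ᵥ (fun i => (w i : ℂ)) = 0 := by
  intro w hw
  rw [rat_mulVec, hX s w hw]
  funext i
  exact Rat.cast_zero

/-- Central elements of the Lie algebra commute with the group. -/
lemma comm_group (hG : IsConnected (group C)) {X : Matrix κ κ ℚ}
    (hX : ∀ Y ∈ lieG C, X * Y = Y * X) {g : GL κ ℂ} (hg : g ∈ group C) :
    (g : Matrix κ κ ℂ) * X.map (algebraMap ℚ ℂ) = X.map (algebraMap ℚ ℂ) * (g : Matrix κ κ ℂ) := by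
  have hXY : ∀ Y ∈ SpM ℂ (lieG C), Y * X.map (algebraMap ℚ ℂ) = X.map (algebraMap ℚ ℂ) * Y := by
    intro Y hY
    induction hY using Submodule.span_induction with
    | mem Y h =>
      obtain ⟨Z, hZ, rfl⟩ := h
      simp only
      rw [← Matrix.map_mul, ← Matrix.map_mul, hX Z hZ]
    | zero => rw [Matrix.zero_mul, Matrix.mul_zero]
    | add A B _ _ hA hB => rw [Matrix.add_mul, Matrix.mul_add, hA, hB]
    | smul c A _ hA => rw [Matrix.smul_mul, Matrix.mul_smul, hA]
  have h1 := fix_of_kill hG (t := .tensor .std (.dual .std))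
    (x := vc (X.map (algebraMap ℚ ℂ))) (by
      intro Y hY
      have h2 : kd Y (-Y.transpose) *ᵥ vc (X.map (algebraMap ℚ ℂ)) =
        vc (Y * X.map (algebraMap ℚ ℂ) - X.map (algebraMap ℚ ℂ) * Y) := kd_vc Y Y _
      refine h2.trans ?_
      rw [hXY Y (lieG_span hY), sub_self]
      rfl) hg
  have h2 : kr (g : Matrix κ κ ℂ) (((g : Matrix κ κ ℂ)⁻¹).transpose) *ᵥ
      vc (X.map (algebraMap ℚ ℂ)) = vc (X.map (algebraMap ℚ ℂ)) := h1
  rw [kr_vc, Matrix.transpose_transpose] at h2
  have h3 := vc_inj h2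
  have h4 : (g : Matrix κ κ ℂ)⁻¹ * (g : Matrix κ κ ℂ) = 1 := by
    rw [← Matrix.coe_units_inv]
    exact gl_inv_mul g
  conv_rhs => rw [← h3, Matrix.mul_assoc, h4, Matrix.mul_one]

/-- Exponentials commute with what the matrix commutes with. -/
lemma ex_comm {X : Matrix κ κ ℂ} {g : GL κ ℂ} (h : (g : Matrix κ κ ℂ) * X = X * (g : Matrix κ κ ℂ))
    (s : ℂ) : eu X s * g = g * eu X s := by
  apply Units.ext
  rw [Units.val_mul, Units.val_mul, eu_coe, ex]
  have h1 : (g : Matrix κ κ ℂ) * (s • X) * ((g⁻¹ : GL κ ℂ) : Matrix κ κ ℂ) = s • X := by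
    rw [Matrix.mul_smul, h, Matrix.smul_mul, Matrix.mul_assoc, gl_mul_inv, Matrix.mul_one]
  have h2 := Matrix.exp_units_conj g (s • X)
  rw [h1] at h2
  conv_lhs => rw [h2]
  rw [Matrix.mul_assoc, gl_inv_mul, Matrix.mul_one]

/-- The centre of the Lie algebra consists of scalars. -/
theorem centre_scalar (hG : IsConnected (group C)) (hZ : CentreIsScalar (group C))
    {X : Matrix κ κ ℚ} (hX : X ∈ lieG C) (hXc : ∀ Y ∈ lieG C, X * Y = Y * X) :
    ∃ c : ℚ, X = c • 1 := by
  cases isEmpty_or_nonempty κ with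
  | inl h => exact ⟨0, Subsingleton.elim _ _⟩
  | inr h =>
    obtain ⟨k⟩ := h
    obtain ⟨n, hn, hz⟩ := hZ
    set Y := X.map (algebraMap ℚ ℂ) with hY
    have h1 : ∀ s : ℂ, ∃ c : ℂ, ex Y s = c • 1 := by
      intro s
      have h2 := hz (eu Y (s / n)) (eu_mem (fun r => kills_of_lieG hX r) _)
        fun g hg => ex_comm (comm_group hG hXc hg) _
      rw [eu_coe, ex_pow, mul_div_cancel₀ s (Nat.cast_ne_zero.2 hn.ne')] at h2
      exact h2
    have hd : ∀ i j, HasDerivAt (fun t => ex Y t i j) (Y i j) 0 := by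
      intro i j
      have h2 := hasDeriv_ex Y 0 i j
      rwa [ex_zero, Matrix.one_mul] at h2
    have hoff : ∀ i j, i ≠ j → Y i j = 0 := by
      intro i j hij
      have h2 : (fun t => ex Y t i j) = fun _ => 0 := by
        funext t
        obtain ⟨c, hc⟩ := h1 t
        rw [hc, Matrix.smul_apply, Matrix.one_apply_ne hij, smul_zero]
      have h3 := hd i j
      rw [h2] at h3
      exact (h3.unique (hasDerivAt_const _ _))
    have hdiag : ∀ i, Y i i = Y k k := by
      intro i
      have h2 : (fun t => ex Y t i i) = fun t => ex Y t k k := by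
        funext t
        obtain ⟨c, hc⟩ := h1 t
        rw [hc, Matrix.smul_apply, Matrix.smul_apply, Matrix.one_apply_eq, Matrix.one_apply_eq]
      have h3 := hd i i
      rw [h2] at h3
      exact h3.unique (hd k k)
    refine ⟨X k k, ?_⟩
    ext i j
    rw [Matrix.smul_apply]
    by_cases hij : i = j
    · subst hij
      rw [Matrix.one_apply_eq, smul_eq_mul, mul_one]
      exact (algebraMap ℚ ℂ).injective (hdiag i)
    · rw [Matrix.one_apply_ne hij, smul_zero]
      apply (algebraMap ℚ ℂ).injective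
      rw [map_zero]
      exact hoff i j hij

end Pool.Agent.Q60.RB
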