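import Pool.Agent.Q60.RB.Fin3

/-!
# The classes of degree four decide
-/

set_option linter.unusedSectionVars false

namespace Pool.Agent.Q60.RB

open Matrix Module Pool.Agent.Q50.LR Pool.Agent.Q60.GL Pool.Agent.Q60.TD

variable {κ : Type} [Fintype κ] [DecidableEq κ] {K : Type} [Field K] [Algebra K ℂ]
  {P : GL κ ℂ} {C : ∀ t : Con, Set (Ix κ t → ℚ)}

/-- The trace of the logarithmic derivative. -/
lemma trace_ldP (δ : Derivation K ℂ ℂ) :
    δ (P : Matrix κ κ ℂ).det = (P : Matrix κ κ ℂ).det * (ldP δ P).trace := by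
  have h1 := Pool.Agent.H23R2.jacobi (δ.restrictScalars ℤ) (P : Matrix κ κ ℂ)
    ((P⁻¹ : GL κ ℂ) : Matrix κ κ ℂ) (gl_mul_inv P)
  rw [Matrix.trace_mul_comm] at h1
  exact h1

open scoped Matrix.Norms.Operator in
lemma ex_one (s : ℂ) : ex (1 : Matrix κ κ ℂ) s = Complex.exp s • 1 := by
  rw [ex, ← Algebra.algebraMap_eq_smul_one, ← Algebra.algebraMap_eq_smul_one,
    Complex.exp_eq_exp_ℂ]
  exact (NormedSpace.algebraMap_exp_comm s).symm

/-- If the Lie algebra of the classes contains the scalars, then the Lie algebra of the de Rham-Betti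
group contains a matrix with nonzero trace. -/
theorem exists_trace [IsAlgClosed K]
    (hdet : ContainsScalars (group C) → Transcendental K (P : Matrix κ κ ℂ).det)
    (h1 : (1 : Matrix κ κ ℚ) ∈ lieG C) : ∃ X ∈ lieH K P, X.trace ≠ 0 := by
  have hs : ContainsScalars (group C) := by
    intro g hg
    obtain ⟨c, hc⟩ := hg
    cases isEmpty_or_nonempty κ with
    | inl h =>
      have h2 : g = 1 := Units.ext (Subsingleton.elim _ _)
      rw [h2]
      exact Subgroup.one_mem _
    | inr h =>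
      obtain ⟨k⟩ := h
      have hc0 : c ≠ 0 := by
        rintro rfl
        rw [zero_smul] at hc
        have h2 := coe_mul_inv g
        rw [hc, Matrix.zero_mul] at h2
        have h3 := congrFun (congrFun h2 k) k
        rw [Matrix.one_apply_eq] at h3
        exact zero_ne_one h3
      have h2 := eu_mem (C := C) (X := (1 : Matrix κ κ ℚ).map (algebraMap ℚ ℂ))
        (fun r => kills_of_lieG h1 r) (Complex.log c)
      have h3 : eu ((1 : Matrix κ κ ℚ).map (algebraMap ℚ ℂ)) (Complex.log c) = g := by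
        apply Units.ext
        rw [eu_coe, Matrix.map_one _ (map_zero _) (map_one _), ex_one, Complex.exp_log hc0, hc]
      rw [h3] at h2
      exact h2
  have ht := hdet hs
  obtain ⟨δ, hδ⟩ : ∃ δ : Derivation K ℂ ℂ, δ (P : Matrix κ κ ℂ).det ≠ 0 := by
    by_contra hcon
    push Not at hcon
    obtain ⟨r, hr⟩ := const_of_der hcon
    rw [← hr] at ht
    exact ht (isAlgebraic_algebraMap r)
  by_contra hcon
  push Not at hcon
  apply hδ
  rw [trace_ldP]
  have h2 : ∀ X ∈ SpM ℂ (lieH K P), X.trace = 0 := by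
    intro X hX
    induction hX using Submodule.span_induction with
    | mem X h =>
      obtain ⟨Y, hY, rfl⟩ := h
      have h3 : (Y.map (algebraMap ℚ ℂ)).trace = algebraMap ℚ ℂ Y.trace := by
        rw [Matrix.trace, Matrix.trace, map_sum]
        rfl
      simp only
      rw [h3, hcon Y hY, map_zero]
    | zero => exact Matrix.trace_zero _ _
    | add A B _ _ hA hB => rw [Matrix.trace_add, hA, hB, add_zero]
    | smul c A _ hA => rw [Matrix.trace_smul, hA, smul_zero]
  rw [h2 _ (ldP_span δ), mul_zero]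

/-- **The Lie algebras are equal.** -/
theorem lieG_le [IsAlgClosed K] (hC : ∀ t, ∀ v ∈ C t, ∃ v' : Ix κ t → K, MapsTo K P t v' v)
    (hG : IsConnected (group C)) (hZ : CentreIsScalar (group C))
    (hdet : ContainsScalars (group C) → Transcendental K (P : Matrix κ κ ℂ).det)
    (hs : IsSemisimple K P) (hF : FullInDegreeFour K P C) : lieG C ≤ lieH K P :=
  core (lieH_le hC) (fun _ hX _ hY => br_lieH hX hY) (proj_four hs hF)
    (fun _ hZ _ hX => comm_one hF hZ hX) (fun _ hX hXc => centre_scalar hG hZ hX hXc)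
    (exists_trace hdet)

/-- Elements of the group of the classes move points of the torsor of the classes. -/
lemma mul_mem_torsorOf {g f : GL κ ℂ} (hg : g ∈ group C) (hf : f ∈ torsorOf K P C) :
    g * f ∈ torsorOf K P C := by
  intro t v hv v' h
  have h1 := hf t v hv v' h
  rw [MapsTo] at h1 ⊢
  rw [Units.val_mul, act_mul, ← Matrix.mulVec_mulVec, h1, hg t v hv]

lemma self_mem_torsorOf : P ∈ torsorOf K P C := fun _ _ _ _ h => h

lemma torsorDRB_le : torsorDRB K P ⊆ torsorOf K P C := by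
  intro f hf t v _ v' h
  exact line_iff.1 (hf _ _ _ (line_iff.2 h))

/-- **The main theorem.** -/
theorem main [IsAlgClosed K] (hC : ∀ t, ∀ v ∈ C t, ∃ v' : Ix κ t → K, MapsTo K P t v' v)
    (hG : IsConnected (group C)) (hZ : CentreIsScalar (group C))
    (hdet : ContainsScalars (group C) → Transcendental K (P : Matrix κ κ ℂ).det)
    (hs : IsSemisimple K P) (hF : FullInDegreeFour K P C) :
    torsorDRB K P = torsorOf K P C := by
  refine subset_antisymm torsorDRB_le ?_
  intro f hf t N' N h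
  have hle := lieG_le hC hG hZ hdet hs hF
  have hg : f * P⁻¹ ∈ group C := by
    intro s v hv
    obtain ⟨v', hv'⟩ := hC s v hv
    have h1 := hf s v hv v' hv'
    rw [MapsTo] at h1 hv'
    rw [Units.val_mul, act_mul, ← hv', ← Matrix.mulVec_mulVec]
    conv_lhs =>
      rw [Matrix.mulVec_mulVec (M := act ((P⁻¹ : GL κ ℂ) : Matrix κ κ ℂ) s)]
    rw [act_mul_inv (gl_inv_mul P), Matrix.one_mulVec, h1, hv']
  have hst : ∀ x, x ∈ cspan N ↔ act ((f * P⁻¹ : GL κ ℂ) : Matrix κ κ ℂ) t *ᵥ x ∈ cspan N := by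
    intro x
    refine stab_conn hG (fun Y hY v hv => ?_) hg x
    exact stab_span (fun X hX w hw => (hle hX) t N' N h w hw) (lieG_span hY) hv
  have hf2 : (act (f : Matrix κ κ ℂ) t).mulVecLin =
      (act ((f * P⁻¹ : GL κ ℂ) : Matrix κ κ ℂ) t).mulVecLin ∘ₗ
        (act (P : Matrix κ κ ℂ) t).mulVecLin := by
    rw [← Matrix.mulVecLin_mul, ← act_mul, ← Units.val_mul, inv_mul_cancel_right]
  rw [Carries, hf2, Submodule.map_comp, h]
  refine le_antisymm ?_ ?_
  · rintro _ ⟨x, hx, rfl⟩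
    exact (hst x).1 hx
  · intro x hx
    have h7 : act ((f * P⁻¹ : GL κ ℂ) : Matrix κ κ ℂ) t *ᵥ
        (act (((f * P⁻¹)⁻¹ : GL κ ℂ) : Matrix κ κ ℂ) t *ᵥ x) = x := by
      rw [Matrix.mulVec_mulVec, act_mul_inv (gl_mul_inv _), Matrix.one_mulVec]
    refine ⟨act (((f * P⁻¹)⁻¹ : GL κ ℂ) : Matrix κ κ ℂ) t *ᵥ x, ?_, h7⟩
    rw [SetLike.mem_coe, hst, h7]
    exact hx

/-- **The converse.** -/
theorem converse [IsAlgClosed K] (hC : ∀ t, ∀ v ∈ C t, ∃ v' : Ix κ t → K, MapsTo K P t v' v)
    (hM : IsMotivic C) (heq : torsorDRB K P = torsorOf K P C) :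
    IsSemisimple K P ∧ FullInDegreeFour K P C := by
  have hg : ∀ g ∈ group C, g * P ∈ torsorDRB K P := fun g hg => by
    rw [heq]
    exact mul_mem_torsorOf hg self_mem_torsorOf
  constructor
  · intro N' N h
    have hst : Stabilises (group C) Con.std N := by
      intro g hgG x hx
      have h1 := hg g hgG _ _ _ h
      have h2 : (act ((g * P : GL κ ℂ) : Matrix κ κ ℂ) Con.std).mulVecLin =
          (act (g : Matrix κ κ ℂ) Con.std).mulVecLin ∘ₗ
            (act (P : Matrix κ κ ℂ) Con.std).mulVecLin := by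
        rw [← Matrix.mulVecLin_mul, ← act_mul, ← Units.val_mul]
      rw [Carries, h2, Submodule.map_comp, h] at h1
      rw [← h1]
      exact ⟨x, hx, rfl⟩
    obtain ⟨N₂, h2, h3⟩ := hM.semisimple N hst
    obtain ⟨N₂', h4⟩ := sub_of_stab (K := K) (P := P) (t := Con.std) (N := N₂) (by
      intro X hX v hv
      apply cspan_rat
      have h5 : (fun i => ((der X Con.std *ᵥ v) i : ℂ)) =
          der (X.map (algebraMap ℚ ℂ)) Con.std *ᵥ fun i => (v i : ℂ) := (rat_mulVec X v).symm
      rw [h5]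
      refine sep.2 fun φ hφ => ?_
      have hXG : X ∈ lieG C := lieH_le hC hX
      -- the function `s ↦ φ (exp (s X) v)` is zero
      have h6 : ∀ s : ℂ, φ ⬝ᵥ (ex (X.map (algebraMap ℚ ℂ)) s *ᵥ fun i => (v i : ℂ)) = 0 := fun s =>
        hφ _ (h2 _ (eu_mem (fun r => kills_of_lieG hXG r) s) _ (cspan_mem hv))
      have h7 : HasDerivAt (fun s : ℂ => φ ⬝ᵥ (ex (X.map (algebraMap ℚ ℂ)) s *ᵥ
          fun i => (v i : ℂ))) (φ ⬝ᵥ (X.map (algebraMap ℚ ℂ) *ᵥ fun i => (v i : ℂ))) 0 := by
        have h8 : HasDerivAt (fun s : ℂ => ∑ i, φ i * ∑ j, ex (X.map (algebraMap ℚ ℂ)) s i j *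
            (v j : ℂ)) (∑ i, φ i * ∑ j, (ex (X.map (algebraMap ℚ ℂ)) 0 *
              X.map (algebraMap ℚ ℂ)) i j * (v j : ℂ)) 0 :=
          HasDerivAt.fun_sum fun i _ => (HasDerivAt.fun_sum fun j _ =>
            (hasDeriv_ex _ 0 i j).mul_const _).const_mul _
        rw [ex_zero, Matrix.one_mul] at h8
        exact h8
      have h9 : (fun s : ℂ => φ ⬝ᵥ (ex (X.map (algebraMap ℚ ℂ)) s *ᵥ fun i => (v i : ℂ))) =
          fun _ => 0 := funext h6
      rw [h9] at h7
      exact h7.unique (hasDerivAt_const _ _))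
    exact ⟨N₂', N₂, h4, h3⟩
  · intro v' v h
    refine hM.fixed four v fun g hgG => ?_
    have h1 : MapsTo K (g * P) four v' v := line_iff.1 (hg g hgG _ _ _ (line_iff.2 h))
    rw [MapsTo] at h h1
    rw [Units.val_mul, act_mul, ← Matrix.mulVec_mulVec, h] at h1
    exact h1

end Pool.Agent.Q60.RB
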