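import Pool.Agent.Q60.RB.Stm

/-!
# Traces
-/

namespace Pool.Agent.Q60.RB

open Matrix

variable {κ : Type} [Fintype κ] [DecidableEq κ] (K : Type) [Field K] [Algebra K ℂ]

/-- All elements of `C` are de Rham-Betti classes. -/
def AreDRB (P : GL κ ℂ) (C : ∀ t : Con, Set (Ix κ t → ℚ)) : Prop :=
  ∀ (t : Con), ∀ v ∈ C t, ∃ v' : Ix κ t → K, MapsTo K P t v' v

/-- The rational matrix `E` is (the Betti part of) an endomorphism of the de Rham-Betti object `M`
with period matrix `P`. -/
def IsEnd (P : GL κ ℂ) (E : Matrix κ κ ℚ) : Prop :=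
  ∃ E' : Matrix κ κ K, (P : Matrix κ κ ℂ) * E'.map (algebraMap K ℂ) =
    E.map (algebraMap ℚ ℂ) * (P : Matrix κ κ ℂ)

/-- `c` is in the centre of the algebra of endomorphisms of `M`. -/
def IsCentralEnd (P : GL κ ℂ) (c : Matrix κ κ ℚ) : Prop :=
  IsEnd K P c ∧ ∀ E : Matrix κ κ ℚ, IsEnd K P E → c * E = E * c

/-- The Lie algebra of the de Rham-Betti group of `M`: the matrices which stabilise the subobjects
of all tensor constructions. -/
def LieDRB (P : GL κ ℂ) : Set (Matrix κ κ ℚ) :=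
  {X | ∀ (t : Con) (N' : Submodule K (Ix κ t → K)) (N : Submodule ℚ (Ix κ t → ℚ)),
    Carries K P t N' N → ∀ v ∈ N, der X t *ᵥ v ∈ N}

/-- The Lie algebra of the group of the classes in `C`: the matrices which kill all classes. -/
def LieOf (C : ∀ t : Con, Set (Ix κ t → ℚ)) : Set (Matrix κ κ ℚ) :=
  {X | ∀ (t : Con), ∀ v ∈ C t, der X t *ᵥ v = 0}

/-- The Lie algebra of the de Rham-Betti group and the Lie algebra of the group of the classes give
the same linear forms `c ↦ tr (X c)` on the centre of the algebra of endomorphisms of `M`. -/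
def SameTraces (P : GL κ ℂ) (C : ∀ t : Con, Set (Ix κ t → ℚ)) : Prop :=
  ∀ X ∈ LieOf C, ∃ Y ∈ LieDRB K P, ∀ c : Matrix κ κ ℚ, IsCentralEnd K P c →
    (X * c).trace = (Y * c).trace

end Pool.Agent.Q60.RB
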