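import Pool.Agent.Q60.RB.Main
import Pool.Agent.Q60.RB.Core2
import Pool.Agent.Q60.RB.Stm2

/-!
# The classes of degree four decide, for any centre
-/

set_option linter.unusedSectionVars false

namespace Pool.Agent.Q60.RB

open Matrix Module Pool.Agent.Q50.LR Pool.Agent.Q60.GL Pool.Agent.Q60.TD

variable {κ : Type} [Fintype κ] [DecidableEq κ] {K : Type} [Field K] [Algebra K ℂ]
  {P : GL κ ℂ} {C : ∀ t : Con, Set (Ix κ t → ℚ)}

lemma coe_inv' (g : GL κ ℂ) : (g : Matrix κ κ ℂ)⁻¹ = ((g⁻¹ : GL κ ℂ) : Matrix κ κ ℂ) :=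
  (Matrix.coe_units_inv g).symm

/-- Endomorphisms are classes on `M ⊗ M^∨`. -/
lemma isEnd_iff {E : Matrix κ κ ℚ} : IsEnd K P E ↔ ∃ E' : Matrix κ κ K,
    MapsTo K P (.tensor .std (.dual .std)) (vc E') (vc E) := by
  have h0 : ∀ E' : Matrix κ κ K, MapsTo K P (.tensor .std (.dual .std)) (vc E') (vc E) ↔
      (P : Matrix κ κ ℂ) * E'.map (algebraMap K ℂ) * ((P⁻¹ : GL κ ℂ) : Matrix κ κ ℂ) =
        E.map (algebraMap ℚ ℂ) := by
    intro E'
    have h1 : act (P : Matrix κ κ ℂ) (.tensor .std (.dual .std)) *ᵥ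
        (fun i => algebraMap K ℂ (vc E' i)) = vc ((P : Matrix κ κ ℂ) *
          E'.map (algebraMap K ℂ) * ((P⁻¹ : GL κ ℂ) : Matrix κ κ ℂ)) := by
      have h2 := kr_vc (P : Matrix κ κ ℂ) (((P : Matrix κ κ ℂ)⁻¹).transpose)
        (E'.map (algebraMap K ℂ))
      rw [Matrix.transpose_transpose, coe_inv'] at h2
      rw [← h2, ← coe_inv']
      rfl
    rw [MapsTo]
    refine ⟨fun h => vc_inj (h1.symm.trans h), fun h => h1.trans ?_⟩
    rw [h]
    rfl
  constructor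
  · rintro ⟨E', h⟩
    refine ⟨E', (h0 E').2 ?_⟩
    rw [h, Matrix.mul_assoc, gl_mul_inv, Matrix.mul_one]
  · rintro ⟨E', h⟩
    refine ⟨E', ?_⟩
    rw [← (h0 E').1 h, Matrix.mul_assoc, gl_inv_mul, Matrix.mul_one]

/-- Endomorphisms are the matrices which commute with the Lie algebra. -/
lemma isEnd_comm [IsAlgClosed K] {E : Matrix κ κ ℚ} :
    IsEnd K P E ↔ ∀ X ∈ lieH K P, X * E = E * X := by
  have h1 : ∀ X : Matrix κ κ ℚ, der X (.tensor .std (.dual .std)) *ᵥ vc E = vc (X * E - E * X) :=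
    fun X => kd_vc X X E
  rw [isEnd_iff]
  constructor
  · rintro ⟨E', h⟩ X hX
    have h2 := (h1 X).symm.trans (kill_of_class h hX)
    exact sub_eq_zero.1 (vc_inj h2)
  · intro h
    obtain ⟨v', hv'⟩ := class_of_kill (K := K) (P := P) (t := .tensor .std (.dual .std))
      (v := vc E) fun X hX => by
        refine (h1 X).trans ?_
        rw [h X hX, sub_self]
        rfl
    exact ⟨Matrix.of fun i j => v' (i, j), hv'⟩

lemma isCentral_iff [IsAlgClosed K] {c : Matrix κ κ ℚ} :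
    IsCentralEnd K P c ↔ IsCentral (lieH K P) c := by
  rw [IsCentralEnd, IsCentral]
  refine and_congr isEnd_comm (forall_congr' fun E => ?_)
  rw [isEnd_comm]

/-- **The Lie algebras are equal.** -/
theorem lieG_le_any [IsAlgClosed K] (hC : AreDRB K P C)
    (hs : IsSemisimple K P) (hF : FullInDegreeFour K P C) (hT : SameTraces K P C) :
    lieG C ≤ lieH K P :=
  core_any (lieH_le hC) (fun _ hX _ hY => br_lieH hX hY) (ss_of hs) (proj_four hs hF)
    (fun _ hZ _ hX => comm_one hF hZ hX) (fun X hX => by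
      obtain ⟨Y, hY, h⟩ := hT X hX
      exact ⟨Y, hY, fun c hc => h c (isCentral_iff.2 hc)⟩)

/-- From the Lie algebras to the torsors. -/
theorem torsor_of_lie [IsAlgClosed K] (hC : AreDRB K P C) (hG : IsConnected (group C))
    (hle : lieG C ≤ lieH K P) : torsorDRB K P = torsorOf K P C := by
  refine subset_antisymm torsorDRB_le ?_
  intro f hf t N' N h
  have hg : f * P⁻¹ ∈ group C := by
    intro s v hv
    obtain ⟨v', hv'⟩ := hC s v hv
    have h1 := hf s v hv v' hv'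
    rw [MapsTo] at h1 hv'
    rw [Units.val_mul, act_mul, ← hv', ← Matrix.mulVec_mulVec]
    conv_lhs =>
      rw [Matrix.mulVec_mulVec (M := act ((P⁻¹ : GL κ ℂ) : Matrix κ κ ℂ) s)]
    rw [act_mul_inv (gl_inv_mul P), Matrix.one_mulVec, h1, hv']
  have hst : ∀ x, x ∈ cspan N ↔ act ((f * P⁻¹ : GL κ ℂ) : Matrix κ κ ℂ) t *ᵥ x ∈ cspan N := by
    intro x
    refine stab_conn hG (fun Y hY v hv => ?_) hg x
    exact stab_span (fun X hX w hw => (hle hX) t N' N h w hw) (lieG_span hY) hv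
  have hf2 : (act (f : Matrix κ κ ℂ) t).mulVecLin =
      (act ((f * P⁻¹ : GL κ ℂ) : Matrix κ κ ℂ) t).mulVecLin ∘ₗ
        (act (P : Matrix κ κ ℂ) t).mulVecLin := by
    rw [← Matrix.mulVecLin_mul, ← act_mul, ← Units.val_mul, inv_mul_cancel_right]
  rw [Carries, hf2, Submodule.map_comp, h]
  refine le_antisymm ?_ ?_
  · rintro _ ⟨x, hx, rfl⟩
    exact (hst x).1 hx
  · intro x hx
    have h7 : act ((f * P⁻¹ : GL κ ℂ) : Matrix κ κ ℂ) t *ᵥ
        (act (((f * P⁻¹)⁻¹ : GL κ ℂ) : Matrix κ κ ℂ) t *ᵥ x) = x := by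
      rw [Matrix.mulVec_mulVec, act_mul_inv (gl_mul_inv _), Matrix.one_mulVec]
    refine ⟨act (((f * P⁻¹)⁻¹ : GL κ ℂ) : Matrix κ κ ℂ) t *ᵥ x, ?_, h7⟩
    rw [SetLike.mem_coe, hst, h7]
    exact hx

/-- A subspace which is stable under exponentials is stable under the matrix. -/
lemma der_of_ex {t : Con} {N : Submodule ℚ (Ix κ t → ℚ)} {X : Matrix κ κ ℚ}
    (h : ∀ (s : ℂ), ∀ x ∈ cspan N,
      act (ex (X.map (algebraMap ℚ ℂ)) s) t *ᵥ x ∈ cspan N) {v : Ix κ t → ℚ} (hv : v ∈ N) :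
    der X t *ᵥ v ∈ N := by
  apply cspan_rat
  have h5 : (fun i => ((der X t *ᵥ v) i : ℂ)) =
      der (X.map (algebraMap ℚ ℂ)) t *ᵥ fun i => (v i : ℂ) := (rat_mulVec X v).symm
  rw [h5]
  refine sep.2 fun φ hφ => ?_
  set Z := der (X.map (algebraMap ℚ ℂ)) t with hZ
  have h0 : ∀ s : ℂ, act (ex (X.map (algebraMap ℚ ℂ)) s) t = ex Z s := by
    intro s
    rw [ex, act_exp, der_smul, ex]
  have h6 : ∀ s : ℂ, φ ⬝ᵥ (ex Z s *ᵥ fun i => (v i : ℂ)) = 0 := fun s => by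
    rw [← h0]
    exact hφ _ (h s _ (cspan_mem hv))
  have h7 : HasDerivAt (fun s : ℂ => φ ⬝ᵥ (ex Z s *ᵥ fun i => (v i : ℂ)))
      (φ ⬝ᵥ (Z *ᵥ fun i => (v i : ℂ))) 0 := by
    have h8 : HasDerivAt (fun s : ℂ => ∑ i, φ i * ∑ j, ex Z s i j * (v j : ℂ))
        (∑ i, φ i * ∑ j, (ex Z 0 * Z) i j * (v j : ℂ)) 0 :=
      HasDerivAt.fun_sum fun i _ => (HasDerivAt.fun_sum fun j _ =>
        (hasDeriv_ex _ 0 i j).mul_const _).const_mul _
    rw [ex_zero, Matrix.one_mul] at h8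
    exact h8
  have h9 : (fun s : ℂ => φ ⬝ᵥ (ex Z s *ᵥ fun i => (v i : ℂ))) = fun _ => 0 := funext h6
  rw [h9] at h7
  exact h7.unique (hasDerivAt_const _ _)

/-- From the torsors to the Lie algebras. -/
theorem lie_of_torsor (heq : torsorDRB K P = torsorOf K P C) : lieG C ≤ lieH K P := by
  intro X hX t N' N h v hv
  refine der_of_ex (fun s x hx => ?_) hv
  have h1 : eu (X.map (algebraMap ℚ ℂ)) s * P ∈ torsorDRB K P := by
    rw [heq]
    exact mul_mem_torsorOf (eu_mem (fun r => kills_of_lieG hX r) s) self_mem_torsorOf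
  have h2 := h1 t N' N h
  have h3 : (act ((eu (X.map (algebraMap ℚ ℂ)) s * P : GL κ ℂ) : Matrix κ κ ℂ) t).mulVecLin =
      (act (ex (X.map (algebraMap ℚ ℂ)) s) t).mulVecLin ∘ₗ
        (act (P : Matrix κ κ ℂ) t).mulVecLin := by
    rw [← Matrix.mulVecLin_mul, ← act_mul, Units.val_mul, eu_coe]
  rw [Carries, h3, Submodule.map_comp, h] at h2
  rw [← h2]
  exact ⟨x, hx, rfl⟩

/-- **The main theorem.** -/
theorem main_any [IsAlgClosed K] (hC : AreDRB K P C) (hG : IsConnected (group C)) :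
    (IsSemisimple K P → FullInDegreeFour K P C → SameTraces K P C →
      torsorDRB K P = torsorOf K P C) ∧
    (IsMotivic C → torsorDRB K P = torsorOf K P C →
      IsSemisimple K P ∧ FullInDegreeFour K P C ∧ SameTraces K P C) ∧
    (CentreIsScalar (group C) → (ContainsScalars (group C) →
      Transcendental K (P : Matrix κ κ ℂ).det) → IsSemisimple K P → FullInDegreeFour K P C →
        SameTraces K P C) := by
  refine ⟨fun hs hF hT => torsor_of_lie hC hG (lieG_le_any hC hs hF hT), fun hM heq => ?_,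
    fun hZ hdet hs hF X hX => ⟨X, lieG_le hC hG hZ hdet hs hF hX, fun _ _ => rfl⟩⟩
  obtain ⟨h1, h2⟩ := converse hC hM heq
  exact ⟨h1, h2, fun X hX => ⟨X, lie_of_torsor heq hX, fun _ _ => rfl⟩⟩

end Pool.Agent.Q60.RB
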