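import Pool.Agent.Q60.RB.Act
import Pool.Agent.Q60.GL.LieG

/-!
# The action by polynomials, tangent matrices
-/

set_option linter.unusedSectionVars false

namespace Pool.Agent.Q60.RB

open MvPolynomial Matrix Pool.Agent.Q60.ED Pool.Agent.Q60.GL

variable {κ : Type} [Fintype κ] [DecidableEq κ]

/-- The variables. -/
abbrev Vr (κ : Type) : Type := (κ ⊕ κ) × (κ ⊕ κ)

/-- The polynomials which give the action on `t(M)` and its dual. -/
noncomputable def pol : Bool → ∀ t : Con, Matrix (Ix κ t) (Ix κ t) (MvPolynomial (Vr κ) ℂ)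
  | _, .one => (1 : Matrix Unit Unit (MvPolynomial (Vr κ) ℂ))
  | true, .std => (Matrix.of fun i j => X (Sum.inl i, Sum.inl j) : Matrix κ κ _)
  | false, .std => (Matrix.of fun i j => X (Sum.inr i, Sum.inr j) : Matrix κ κ _)
  | b, .dual t => pol (!b) t
  | b, .tensor t s => kr (pol b t) (pol b s)
  | b, .sum t s => bl (pol b t) (pol b s)

/-- The matrix with the blocks `g` and the transpose of its inverse. -/
def blk (g h : Matrix κ κ ℂ) : Matrix (κ ⊕ κ) (κ ⊕ κ) ℂ := bl g h.transpose

/-- The action on `t(M)` or its dual. -/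
noncomputable def actB (b : Bool) (g h : Matrix κ κ ℂ) (t : Con) : Matrix (Ix κ t) (Ix κ t) ℂ :=
  match b with
  | true => act g t
  | false => (act h t).transpose

lemma kr_map {A B R S : Type} [CommRing R] [CommRing S] [Fintype A] [Fintype B] (f : R →+* S)
    (M : Matrix A A R) (N : Matrix B B R) : (kr M N).map f = kr (M.map f) (N.map f) := by
  ext ⟨i, i'⟩ ⟨j, j'⟩
  simp [kr]

lemma bl_map {A B R S : Type} [CommRing R] [CommRing S] [Fintype A] [Fintype B] (f : R →+* S)
    (M : Matrix A A R) (N : Matrix B B R) : (bl M N).map f = bl (M.map f) (N.map f) := by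
  ext (i | i) (j | j) <;> simp [bl]

theorem ev_pol {g h : Matrix κ κ ℂ} (hgh : g * h = 1) (b : Bool) (t : Con) :
    (pol b t).map (evM (blk g h)).toRingHom = actB b g h t := by
  have hhg : h * g = 1 := mul_eq_one_comm.1 hgh
  induction t generalizing b with
  | one =>
    cases b
    · change (1 : Matrix Unit Unit (MvPolynomial (Vr κ) ℂ)).map (evM (blk g h)).toRingHom =
        (1 : Matrix Unit Unit ℂ).transpose
      rw [Matrix.transpose_one, Matrix.map_one _ (map_zero _) (map_one _)]
    · exact Matrix.map_one _ (map_zero _) (map_one _)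
  | std =>
    cases b
    · ext i j
      exact evM_X _ _
    · ext i j
      exact evM_X _ _
  | dual t ih =>
    cases b
    · refine (ih true).trans ?_
      change act g t = (((act h t)⁻¹).transpose).transpose
      rw [Matrix.transpose_transpose, act_inv hhg]
    · refine (ih false).trans ?_
      change (act h t).transpose = ((act g t)⁻¹).transpose
      rw [act_inv hgh]
  | tensor t s iht ihs =>
    refine (kr_map _ _ _).trans ((congrArg₂ kr (iht b) (ihs b)).trans ?_)
    cases b
    · change kr (act h t).transpose (act h s).transpose = (kr (act h t) (act h s)).transpose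
      ext ⟨i, i'⟩ ⟨j, j'⟩
      rfl
    · rfl
  | sum t s iht ihs =>
    refine (bl_map _ _ _).trans ((congrArg₂ bl (iht b) (ihs b)).trans ?_)
    cases b
    · change bl (act h t).transpose (act h s).transpose = (bl (act h t) (act h s)).transpose
      ext (i | i) (j | j) <;> simp [bl]
    · rfl

/-- The derivative of the action on `t(M)` or its dual. -/
noncomputable def derB (b : Bool) (Y : Matrix κ κ ℂ) (t : Con) : Matrix (Ix κ t) (Ix κ t) ℂ :=
  match b with
  | true => der Y t
  | false => -(der Y t).transpose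

/-- Derivations of matrices. -/
lemma mapD_mul {A R S : Type} [Fintype A] [CommRing R] [CommRing S] [Algebra R S]
    (δ : Derivation R S S) (M N : Matrix A A S) :
    (M * N).map δ = M.map δ * N + M * N.map δ := by
  ext i j
  change δ ((M * N) i j) = (M.map δ * N) i j + (M * N.map δ) i j
  rw [Matrix.mul_apply, Matrix.mul_apply, Matrix.mul_apply, map_sum, ← Finset.sum_add_distrib]
  refine Finset.sum_congr rfl fun l _ => ?_
  rw [Derivation.leibniz, smul_eq_mul, smul_eq_mul]
  simp only [Matrix.map_apply]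
  ring

lemma mapD_one {A R S : Type} [Fintype A] [DecidableEq A] [CommRing R] [CommRing S] [Algebra R S]
    (δ : Derivation R S S) : (1 : Matrix A A S).map δ = 0 := by
  ext i j
  rw [Matrix.map_apply, Matrix.one_apply]
  split_ifs
  · exact δ.map_one_eq_zero
  · exact map_zero δ

lemma mapD_kr {A B R S : Type} [Fintype A] [Fintype B] [CommRing R] [CommRing S] [Algebra R S]
    (δ : Derivation R S S) (M : Matrix A A S) (N : Matrix B B S) :
    (kr M N).map δ = kr (M.map δ) N + kr M (N.map δ) := by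
  ext ⟨i, i'⟩ ⟨j, j'⟩
  simp only [Matrix.map_apply, Matrix.kroneckerMap_apply, Matrix.add_apply]
  rw [Derivation.leibniz, smul_eq_mul, smul_eq_mul]
  ring

lemma mapD_bl {A B R S : Type} [Fintype A] [Fintype B] [CommRing R] [CommRing S] [Algebra R S]
    (δ : Derivation R S S) (M : Matrix A A S) (N : Matrix B B S) :
    (bl M N).map δ = bl (M.map δ) (N.map δ) := by
  ext (i | i) (j | j) <;> simp [bl]

lemma krD {A B S : Type} [Fintype A] [Fintype B] [DecidableEq A] [DecidableEq B] [CommRing S]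
    (p D : Matrix A A S) (q E : Matrix B B S) :
    kr (p * D) q + kr p (q * E) = kr p q * (kr D 1 + kr 1 E) := by
  rw [Matrix.mul_add, kr_mul, kr_mul, Matrix.mul_one, Matrix.mul_one]

theorem dA_pol (Y : Matrix κ κ ℂ) (b : Bool) (t : Con) :
    (pol b t).map (dA (bl Y (-Y.transpose))) =
      pol b t * (derB b Y t).map (C : ℂ →+* MvPolynomial (Vr κ) ℂ) := by
  induction t generalizing b with
  | one =>
    have h1 : (derB b Y Con.one).map (C : ℂ →+* MvPolynomial (Vr κ) ℂ) =
        (0 : Matrix Unit Unit (MvPolynomial (Vr κ) ℂ)) := by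
      cases b
      · change (-(0 : Matrix Unit Unit ℂ).transpose).map (C : ℂ →+* MvPolynomial (Vr κ) ℂ) = 0
        ext i j
        simp
      · change (0 : Matrix Unit Unit ℂ).map (C : ℂ →+* MvPolynomial (Vr κ) ℂ) = 0
        ext i j
        simp
    rw [h1]
    refine (mapD_one (A := Unit) (dA (bl Y (-Y.transpose)))).trans ?_
    exact (Matrix.mul_zero (1 : Matrix Unit Unit (MvPolynomial (Vr κ) ℂ))).symm
  | std =>
    cases b
    · ext1 i j
      change dA _ (X ((Sum.inr i : κ ⊕ κ), (Sum.inr j : κ ⊕ κ))) = _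
      rw [dA_X, Fintype.sum_sum_type]
      change _ = ∑ k : κ, X ((Sum.inr i : κ ⊕ κ), (Sum.inr k : κ ⊕ κ)) * C ((-Y.transpose) k j)
      have hz : ∀ c : κ, (X ((Sum.inr i : κ ⊕ κ), (Sum.inl c : κ ⊕ κ)) : MvPolynomial (Vr κ) ℂ) *
          C ((bl Y (-Y.transpose) : Matrix (κ ⊕ κ) (κ ⊕ κ) ℂ) (Sum.inl c) (Sum.inr j)) = 0 := by
        intro c
        have h0 : (bl Y (-Y.transpose) : Matrix (κ ⊕ κ) (κ ⊕ κ) ℂ) (Sum.inl c) (Sum.inr j) = 0 := rfl
        rw [h0, map_zero, mul_zero]
      refine (congrArg₂ (· + ·) (Finset.sum_eq_zero fun c _ => hz c) rfl).trans ?_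
      exact zero_add _
    · ext1 i j
      change dA _ (X ((Sum.inl i : κ ⊕ κ), (Sum.inl j : κ ⊕ κ))) = _
      rw [dA_X, Fintype.sum_sum_type]
      change _ = ∑ k : κ, X ((Sum.inl i : κ ⊕ κ), (Sum.inl k : κ ⊕ κ)) * C (Y k j)
      have hz : ∀ c : κ, (X ((Sum.inl i : κ ⊕ κ), (Sum.inr c : κ ⊕ κ)) : MvPolynomial (Vr κ) ℂ) *
          C ((bl Y (-Y.transpose) : Matrix (κ ⊕ κ) (κ ⊕ κ) ℂ) (Sum.inr c) (Sum.inl j)) = 0 := by
        intro c
        have h0 : (bl Y (-Y.transpose) : Matrix (κ ⊕ κ) (κ ⊕ κ) ℂ) (Sum.inr c) (Sum.inl j) = 0 := rfl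
        rw [h0, map_zero, mul_zero]
      refine (congrArg₂ (· + ·) rfl (Finset.sum_eq_zero fun c _ => hz c)).trans ?_
      exact add_zero _
  | dual t ih =>
    refine (ih (!b)).trans ?_
    have h1 : derB (!b) Y t = derB b Y (.dual t) := by
      cases b
      · change der Y t = -(-(der Y t).transpose).transpose
        rw [Matrix.transpose_neg, Matrix.transpose_transpose, neg_neg]
      · rfl
    rw [h1]
    rfl
  | tensor t s iht ihs =>
    refine (mapD_kr _ _ _).trans ?_
    rw [iht b, ihs b]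
    have h1 : derB b Y (.tensor t s) = kd (derB b Y t) (derB b Y s) := by
      cases b
      · change -(kd (der Y t) (der Y s)).transpose =
          kd (-(der Y t).transpose) (-(der Y s).transpose)
        ext ⟨i, i'⟩ ⟨j, j'⟩
        simp only [kd, Matrix.neg_apply, Matrix.transpose_apply, Matrix.add_apply,
          Matrix.kroneckerMap_apply, Matrix.one_apply, @eq_comm _ j i, @eq_comm _ j' i']
        ring
      · rfl
    have h2 : (kd (derB b Y t) (derB b Y s)).map (C : ℂ →+* MvPolynomial (Vr κ) ℂ) =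
        kr ((derB b Y t).map (C : ℂ →+* MvPolynomial (Vr κ) ℂ)) 1 +
          kr 1 ((derB b Y s).map (C : ℂ →+* MvPolynomial (Vr κ) ℂ)) := by
      ext1 ⟨i, i'⟩ ⟨j, j'⟩
      simp only [kd, Matrix.add_apply, Matrix.kroneckerMap_apply, Matrix.one_apply,
        Matrix.map_apply, map_add, map_mul]
      split_ifs <;> simp
    rw [h1]
    exact (krD _ _ _ _).trans (congrArg (fun Z : Matrix (Ix κ t × Ix κ s) (Ix κ t × Ix κ s)
      (MvPolynomial (Vr κ) ℂ) => kr (pol b t) (pol b s) * Z) h2.symm)
  | sum t s iht ihs =>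
    refine (mapD_bl _ _ _).trans ?_
    rw [iht b, ihs b]
    have h1 : derB b Y (.sum t s) = bl (derB b Y t) (derB b Y s) := by
      cases b
      · change -(bl (der Y t) (der Y s)).transpose =
          bl (-(der Y t).transpose) (-(der Y s).transpose)
        ext (i | i) (j | j) <;> simp [bl]
      · rfl
    rw [h1]
    exact (bl_mul _ _ _ _).symm.trans (congrArg (fun Z : Matrix (Ix κ t ⊕ Ix κ s) (Ix κ t ⊕ Ix κ s)
      (MvPolynomial (Vr κ) ℂ) => bl (pol b t) (pol b s) * Z)
      (bl_map (C : ℂ →+* MvPolynomial (Vr κ) ℂ) (derB b Y t) (derB b Y s)).symm)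

/-- The function `g ↦ φ (g v)`. -/
noncomputable def pfn {t : Con} (φ v : Ix κ t → ℂ) : MvPolynomial (Vr κ) ℂ :=
  ∑ i, ∑ j, C (φ i) * pol true t i j * C (v j)

lemma ev_pfn {g h : Matrix κ κ ℂ} (hgh : g * h = 1) {t : Con} (φ v : Ix κ t → ℂ) :
    evM (blk g h) (pfn φ v) = φ ⬝ᵥ (act g t *ᵥ v) := by
  have h1 : ∀ i j, evM (blk g h) (pol true t i j) = act g t i j := fun i j =>
    congrFun (congrFun (ev_pol hgh true t) i) j
  rw [pfn, map_sum, dotProduct]
  refine Finset.sum_congr rfl fun i _ => ?_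
  rw [map_sum, Matrix.mulVec, dotProduct, Finset.mul_sum]
  refine Finset.sum_congr rfl fun j _ => ?_
  rw [map_mul, map_mul, evM_C, evM_C, h1, mul_assoc]

lemma dA_pfn (Y : Matrix κ κ ℂ) {t : Con} (φ v : Ix κ t → ℂ) :
    dA (bl Y (-Y.transpose)) (pfn φ v) = pfn φ (der Y t *ᵥ v) := by
  have h1 : ∀ i j, dA (bl Y (-Y.transpose)) (pol true t i j) =
      ∑ k, pol true t i k * C (der Y t k j) := fun i j =>
    congrFun (congrFun (dA_pol Y true t) i) j
  rw [pfn, pfn, map_sum]
  refine Finset.sum_congr rfl fun i _ => ?_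
  rw [map_sum]
  have h2 : ∀ j, dA (bl Y (-Y.transpose)) (C (φ i) * pol true t i j * C (v j)) =
      ∑ k, C (φ i) * pol true t i k * C (der Y t k j * v j) := by
    intro j
    rw [Derivation.leibniz, Derivation.leibniz, dA_C, dA_C, h1, smul_zero, smul_zero, zero_add,
      add_zero, smul_eq_mul, smul_eq_mul, Finset.mul_sum, Finset.mul_sum]
    refine Finset.sum_congr rfl fun k _ => ?_
    rw [map_mul]
    ring
  rw [Finset.sum_congr rfl fun j _ => h2 j, Finset.sum_comm]
  refine Finset.sum_congr rfl fun k _ => ?_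
  rw [← Finset.mul_sum, ← map_sum]
  rfl

lemma pfn_add {t : Con} (φ v w : Ix κ t → ℂ) : pfn φ (v + w) = pfn φ v + pfn φ w := by
  rw [pfn, pfn, pfn, ← Finset.sum_add_distrib]
  refine Finset.sum_congr rfl fun i _ => ?_
  rw [← Finset.sum_add_distrib]
  refine Finset.sum_congr rfl fun j _ => ?_
  rw [Pi.add_apply, map_add, mul_add]

lemma pfn_smul {t : Con} (φ : Ix κ t → ℂ) (c : ℂ) (v : Ix κ t → ℂ) :
    pfn φ (c • v) = C c * pfn φ v := by
  rw [pfn, pfn, Finset.mul_sum]
  refine Finset.sum_congr rfl fun i _ => ?_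
  rw [Finset.mul_sum]
  refine Finset.sum_congr rfl fun j _ => ?_
  rw [Pi.smul_apply, smul_eq_mul, map_mul]
  ring

lemma pfn_sum {t : Con} (φ : Ix κ t → ℂ) {T : Type} (s : Finset T) (v : T → Ix κ t → ℂ) :
    pfn φ (∑ k ∈ s, v k) = ∑ k ∈ s, pfn φ (v k) := by
  classical
  induction s using Finset.induction_on with
  | empty =>
    rw [Finset.sum_empty, Finset.sum_empty]
    have h1 := pfn_smul φ 0 (0 : Ix κ t → ℂ)
    rwa [zero_smul, map_zero, zero_mul] at h1
  | insert a s ha ih => rw [Finset.sum_insert ha, Finset.sum_insert ha, pfn_add, ih]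

end Pool.Agent.Q60.RB
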